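import Mathlib

set_option autoImplicit false

/-! Fourier transforms in some `L^p`. -/

namespace Pool.Agent.Run7.h582.FD
open MeasureTheory

/-- the characteristic function is measurable -/
lemma charFun_meas (μ : Measure ℝ) [IsFiniteMeasure μ] : Continuous (fun ξ => charFun μ ξ) :=
  continuous_charFun

lemma pow_up (μ : Measure ℝ) [IsFiniteMeasure μ] (p : ℕ) (hp : Integrable (fun ξ => ‖charFun μ ξ‖ ^ p)) :
    Integrable (fun ξ => ‖charFun μ ξ‖ ^ (2 * p)) := by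
  have h1 : Integrable (fun ξ => μ.real Set.univ ^ p * ‖charFun μ ξ‖ ^ p) := hp.const_mul _
  refine h1.mono' ?_ (Filter.Eventually.of_forall fun ξ => ?_)
  · exact ((charFun_meas μ).norm.pow _).aestronglyMeasurable
  · rw [Real.norm_of_nonneg (by positivity), two_mul, pow_add]
    apply mul_le_mul_of_nonneg_right _ (by positivity)
    exact pow_le_pow_left₀ (norm_nonneg _) (norm_charFun_le ξ) p

lemma pow_of_decay (μ : Measure ℝ) [IsFiniteMeasure μ] (C δ : ℝ) (hδ : 0 < δ)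
    (h : ∀ ξ : ℝ, ‖charFun μ ξ‖ ≤ C * (1 + |ξ|) ^ (-δ)) : ∃ p : ℕ, Integrable (fun ξ => ‖charFun μ ξ‖ ^ p) := by
  obtain ⟨p, hp⟩ := exists_nat_gt (1 / δ)
  refine ⟨p, ?_⟩
  have hpδ : 1 < δ * p := by
    rw [div_lt_iff₀ hδ] at hp
    linarith
  have h1 : Integrable (fun ξ : ℝ => (1 + ‖ξ‖) ^ (-(δ * p))) :=
    integrable_one_add_norm (by simpa using hpδ)
  refine (h1.const_mul (C ^ p)).mono' ?_ (Filter.Eventually.of_forall fun ξ => ?_)
  · exact ((charFun_meas μ).norm.pow _).aestronglyMeasurable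
  · rw [Real.norm_of_nonneg (by positivity)]
    have h2 : (0 : ℝ) ≤ 1 + |ξ| := by positivity
    calc ‖charFun μ ξ‖ ^ p ≤ (C * (1 + |ξ|) ^ (-δ)) ^ p := pow_le_pow_left₀ (norm_nonneg _) (h ξ) p
      _ = C ^ p * (1 + ‖ξ‖) ^ (-(δ * p)) := by
        rw [mul_pow, ← Real.rpow_natCast ((1 + |ξ|) ^ (-δ)) p, ← Real.rpow_mul h2, Real.norm_eq_abs, neg_mul]

end Pool.Agent.Run7.h582.FD
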