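import Mathlib

set_option autoImplicit false

/-! The additive energy of a measure on the line whose Fourier transform is in some `L^p`. -/

namespace Pool.Agent.Run7.h582.FD
open MeasureTheory ProbabilityTheory Complex
open scoped NNReal Real

/-- the product measure of two families of `h` points -/
noncomputable def pm (h : ℕ) (μ : Measure ℝ) : Measure ((Fin h → ℝ) × (Fin h → ℝ)) :=
  (Measure.pi (fun _ => μ)).prod (Measure.pi (fun _ => μ))

noncomputable instance (h : ℕ) (μ : Measure ℝ) [IsFiniteMeasure μ] : IsFiniteMeasure (pm h μ) := by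
  unfold pm; infer_instance

/-- the difference of the two sums -/
def df (h : ℕ) (q : (Fin h → ℝ) × (Fin h → ℝ)) : ℝ := ∑ i, q.1 i - ∑ i, q.2 i

@[fun_prop]
lemma df_cont (h : ℕ) : Continuous (df h) := by
  unfold df; fun_prop

@[fun_prop]
lemma df_meas (h : ℕ) : Measurable (df h) := (df_cont h).measurable

lemma char_pm (h : ℕ) (μ : Measure ℝ) [IsFiniteMeasure μ] (ξ : ℝ) :
    ∫ q, exp (((df h q * ξ : ℝ) : ℂ) * I) ∂(pm h μ) = ((‖charFun μ ξ‖ ^ (2 * h) : ℝ) : ℂ) := by
  have h1 : ∀ q : (Fin h → ℝ) × (Fin h → ℝ), exp (((df h q * ξ : ℝ) : ℂ) * I) =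
      (∏ i, exp ((ξ : ℂ) * (q.1 i : ℂ) * I)) * ∏ i, exp (((-ξ : ℝ) : ℂ) * (q.2 i : ℂ) * I) := by
    intro q
    rw [← Complex.exp_sum, ← Complex.exp_sum, ← Complex.exp_add]
    congr 1
    unfold df
    rw [← Finset.sum_mul, ← Finset.sum_mul, ← Finset.mul_sum, ← Finset.mul_sum]
    push_cast
    ring
  simp_rw [h1]
  unfold pm
  rw [integral_prod_mul (fun x : Fin h → ℝ => ∏ i, exp ((ξ : ℂ) * (x i : ℂ) * I))
    (fun y : Fin h → ℝ => ∏ i, exp (((-ξ : ℝ) : ℂ) * (y i : ℂ) * I)),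
    integral_fintype_prod_eq_pow (fun x : ℝ => exp ((ξ : ℂ) * (x : ℂ) * I)),
    integral_fintype_prod_eq_pow (fun x : ℝ => exp (((-ξ : ℝ) : ℂ) * (x : ℂ) * I)),
    ← charFun_apply_real, ← charFun_apply_real, charFun_neg, Fintype.card_fin, ← mul_pow,
    Complex.mul_conj, Complex.normSq_eq_norm_sq, pow_mul]
  push_cast
  rfl

lemma gauss_int (h : ℕ) (μ : Measure ℝ) [IsFiniteMeasure μ] (v : ℝ≥0) :
    ∫ q, Real.exp (-(v * df h q ^ 2 / 2)) ∂(pm h μ) = ∫ ξ, ‖charFun μ ξ‖ ^ (2 * h) ∂(gaussianReal 0 v) := by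
  have h1 : ∀ q : (Fin h → ℝ) × (Fin h → ℝ), ((Real.exp (-(v * df h q ^ 2 / 2)) : ℝ) : ℂ) =
      ∫ ξ, exp (((df h q * ξ : ℝ) : ℂ) * I) ∂(gaussianReal 0 v) := by
    intro q
    have h2 := charFun_gaussianReal (μ := 0) (v := v) (df h q)
    rw [charFun_apply_real] at h2
    have h3 : (fun ξ : ℝ => exp (((df h q * ξ : ℝ) : ℂ) * I)) =
        fun ξ : ℝ => exp ((df h q : ℂ) * (ξ : ℂ) * I) := by
      funext ξ
      push_cast
      rfl
    rw [h3, h2]
    push_cast
    congr 1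
    ring
  have h2 : ((∫ q, Real.exp (-(v * df h q ^ 2 / 2)) ∂(pm h μ) : ℝ) : ℂ) =
      ((∫ ξ, ‖charFun μ ξ‖ ^ (2 * h) ∂(gaussianReal 0 v) : ℝ) : ℂ) := by
    rw [← integral_complex_ofReal, ← integral_complex_ofReal]
    simp_rw [h1, ← char_pm]
    rw [integral_integral_swap]
    apply Integrable.mono' (g := fun _ => (1 : ℝ)) (integrable_const _)
    · apply Continuous.aestronglyMeasurable
      unfold Function.uncurry
      fun_prop
    · refine Filter.Eventually.of_forall fun z => ?_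
      unfold Function.uncurry
      rw [Complex.norm_exp_ofReal_mul_I]
  exact_mod_cast h2

theorem energy_meas (h : ℕ) (μ : Measure ℝ) [IsFiniteMeasure μ]
    (hI : Integrable (fun ξ => ‖charFun μ ξ‖ ^ (2 * h))) (r : ℝ) (hr : 0 < r) :
    (pm h μ).real {q | |df h q| ≤ r} ≤ (∫ ξ, ‖charFun μ ξ‖ ^ (2 * h)) * r := by
  obtain ⟨v, hv⟩ : ∃ v : ℝ≥0, (v : ℝ) = 1 / r ^ 2 := ⟨⟨1 / r ^ 2, by positivity⟩, rfl⟩
  have hv0 : (0 : ℝ) < v := by rw [hv]; positivity
  have hvn : v ≠ 0 := by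
    intro h0
    rw [h0] at hv0
    simp at hv0
  have hint : Integrable (fun q => Real.exp (-(v * df h q ^ 2 / 2))) (pm h μ) := by
    apply Integrable.mono' (g := fun _ => (1 : ℝ)) (integrable_const _)
    · apply Continuous.aestronglyMeasurable
      fun_prop
    · refine Filter.Eventually.of_forall fun q => ?_
      rw [Real.norm_of_nonneg (Real.exp_pos _).le]
      apply Real.exp_le_one_iff.2
      have : 0 ≤ (v : ℝ) * df h q ^ 2 / 2 := by positivity
      linarith
  have h1 := mul_meas_ge_le_integral_of_nonneg (μ := pm h μ) (f := fun q => Real.exp (-(v * df h q ^ 2 / 2)))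
    (Filter.Eventually.of_forall fun q => (Real.exp_pos _).le) hint (Real.exp (-(1 / 2)))
  rw [gauss_int] at h1
  have h2 : (pm h μ).real {q | |df h q| ≤ r} ≤
      (pm h μ).real {q | Real.exp (-(1 / 2)) ≤ Real.exp (-(v * df h q ^ 2 / 2))} := by
    apply measureReal_mono
    · intro q hq
      simp only [Set.mem_ofPred_eq] at hq ⊢
      apply Real.exp_le_exp.2
      have h3 : df h q ^ 2 ≤ r ^ 2 := by
        rw [← sq_abs]
        exact pow_le_pow_left₀ (abs_nonneg _) hq 2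
      have h4 : (v : ℝ) * df h q ^ 2 ≤ 1 := by
        rw [hv]
        rw [one_div_mul_eq_div, div_le_one (by positivity)]
        exact h3
      linarith
    · exact measure_ne_top _ _
  have h3 : ∫ ξ, ‖charFun μ ξ‖ ^ (2 * h) ∂(gaussianReal 0 v) ≤ (√(2 * π * v))⁻¹ * ∫ ξ, ‖charFun μ ξ‖ ^ (2 * h) := by
    rw [integral_gaussianReal_eq_integral_smul hvn, ← integral_const_mul]
    apply integral_mono_of_nonneg
    · refine Filter.Eventually.of_forall fun ξ => ?_
      simp only [Pi.zero_apply, smul_eq_mul]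
      exact mul_nonneg (gaussianPDFReal_nonneg _ _ _) (by positivity)
    · exact hI.const_mul _
    · refine Filter.Eventually.of_forall fun ξ => ?_
      simp only [smul_eq_mul]
      apply mul_le_mul_of_nonneg_right _ (by positivity)
      rw [gaussianPDFReal]
      have h4 : Real.exp (-(ξ - 0) ^ 2 / (2 * v)) ≤ 1 := by
        apply Real.exp_le_one_iff.2
        apply div_nonpos_of_nonpos_of_nonneg
        · have := sq_nonneg (ξ - 0)
          linarith
        · positivity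
      have h5 : 0 ≤ (√(2 * π * v))⁻¹ := by positivity
      calc (√(2 * π * v))⁻¹ * Real.exp (-(ξ - 0) ^ 2 / (2 * v)) ≤ (√(2 * π * v))⁻¹ * 1 :=
            mul_le_mul_of_nonneg_left h4 h5
        _ = _ := mul_one _
  have h6 : (√(2 * π * v))⁻¹ = r / √(2 * π) := by
    rw [hv, show 2 * π * (1 / r ^ 2) = (2 * π) / r ^ 2 by ring, Real.sqrt_div' _ (by positivity), Real.sqrt_sq hr.le,
      inv_div]
  have hI0 : 0 ≤ ∫ ξ, ‖charFun μ ξ‖ ^ (2 * h) := integral_nonneg fun ξ => by positivity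
  have h7 : Real.exp (1 / 2) ≤ √(2 * π) := by
    have h8 : Real.exp (1 / 2) = √(Real.exp 1) := by
      rw [Real.sqrt_eq_rpow, ← Real.exp_mul]
      norm_num
    rw [h8]
    apply Real.sqrt_le_sqrt
    have := Real.exp_one_lt_d9
    have := Real.pi_gt_three
    linarith
  have h8 : Real.exp (-(1 / 2)) * Real.exp (1 / 2) = 1 := by
    rw [← Real.exp_add]
    norm_num
  have h9 : Real.exp (-(1 / 2)) * (pm h μ).real {q | |df h q| ≤ r} ≤
      r / √(2 * π) * ∫ ξ, ‖charFun μ ξ‖ ^ (2 * h) := by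
    rw [← h6]
    refine (mul_le_mul_of_nonneg_left h2 (Real.exp_pos _).le).trans (h1.trans h3)
  have hs : 0 < √(2 * π) := by positivity
  calc (pm h μ).real {q | |df h q| ≤ r} = Real.exp (1 / 2) * (Real.exp (-(1 / 2)) * (pm h μ).real {q | |df h q| ≤ r}) := by
        rw [← mul_assoc, mul_comm (Real.exp (1 / 2)), h8, one_mul]
    _ ≤ Real.exp (1 / 2) * (r / √(2 * π) * ∫ ξ, ‖charFun μ ξ‖ ^ (2 * h)) :=
        mul_le_mul_of_nonneg_left h9 (Real.exp_pos _).le
    _ = (Real.exp (1 / 2) / √(2 * π)) * ((∫ ξ, ‖charFun μ ξ‖ ^ (2 * h)) * r) := by ring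
    _ ≤ 1 * ((∫ ξ, ‖charFun μ ξ‖ ^ (2 * h)) * r) := by
        apply mul_le_mul_of_nonneg_right _ (by positivity)
        rw [div_le_one hs]
        exact h7
    _ = _ := one_mul _

end Pool.Agent.Run7.h582.FD
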