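import Pool.Agent.Run7.h582.FD.Wt
import Pool.Agent.Run7.h582.FD.Gauss

set_option autoImplicit false

/-! From families of integers to the integer parts of `lam * x + c` for a random `x`. -/

namespace Pool.Agent.Run7.h582.FD
open Finset Filter Topology MeasureTheory
open Pool.Agent.TH935.GF (En)

/-- the points `x ∈ [-K, K]` with `⌊lam * x + c⌋ = j` -/
def cell (K lam c : ℝ) (j : ℤ) : Set ℝ := {x | x ∈ Set.Icc (-K) K ∧ ⌊lam * x + c⌋ = j}

lemma cell_meas (K lam c : ℝ) (j : ℤ) : MeasurableSet (cell K lam c j) := by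
  have h1 : cell K lam c j = Set.Icc (-K) K ∩ ((fun x : ℝ => ⌊lam * x + c⌋) ⁻¹' {j}) := rfl
  rw [h1]
  refine measurableSet_Icc.inter (Measurable.floor ?_ (measurableSet_singleton j))
  fun_prop

/-- the possible values -/
noncomputable def vals (K lam c : ℝ) : Finset ℤ := Icc ⌊-(lam * K) + c⌋ ⌊lam * K + c⌋

lemma mem_vals (K lam c : ℝ) (hlam : 0 < lam) (x : ℝ) (hx : x ∈ Set.Icc (-K) K) : ⌊lam * x + c⌋ ∈ vals K lam c := by
  unfold vals
  rw [Finset.mem_Icc]
  constructor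
  · apply Int.floor_le_floor
    have := mul_le_mul_of_nonneg_left hx.1 hlam.le
    linarith
  · apply Int.floor_le_floor
    have := mul_le_mul_of_nonneg_left hx.2 hlam.le
    linarith

lemma cell_disj (K lam c : ℝ) {i j : ℤ} (hij : i ≠ j) : Disjoint (cell K lam c i) (cell K lam c j) := by
  rw [Set.disjoint_left]
  intro x hx hy
  exact hij (hx.2.symm.trans hy.2)

open Classical in
lemma sum_cells (μ : Measure ℝ) [IsFiniteMeasure μ] (K lam c : ℝ) (hlam : 0 < lam) (E : ℤ → Prop) :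
    ∑ j ∈ (vals K lam c).filter E, μ.real (cell K lam c j) =
      μ.real {x | x ∈ Set.Icc (-K) K ∧ E ⌊lam * x + c⌋} := by
  have h1 : {x | x ∈ Set.Icc (-K) K ∧ E ⌊lam * x + c⌋} = ⋃ j ∈ (vals K lam c).filter E, cell K lam c j := by
    ext x
    simp only [Set.mem_ofPred_eq, Set.mem_iUnion, exists_prop, Finset.mem_filter]
    constructor
    · rintro ⟨h1, h2⟩
      exact ⟨_, ⟨mem_vals K lam c hlam x h1, h2⟩, h1, rfl⟩
    · rintro ⟨j, ⟨_, h2⟩, h3, h4⟩
      rw [h4]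
      exact ⟨h3, h2⟩
  rw [h1, measureReal_biUnion_finset]
  · intro i _ j _ hij
    exact cell_disj K lam c hij
  · intro j _
    exact cell_meas K lam c j

lemma pi_real (h : ℕ) (μ : Measure ℝ) [IsFiniteMeasure μ] (s : Fin h → Set ℝ) :
    (Measure.pi (fun _ : Fin h => μ)).real (Set.univ.pi s) = ∏ i, μ.real (s i) := by
  unfold Measure.real
  rw [Measure.pi_pi, ENNReal.toReal_prod]

lemma WE_le_gen (h : ℕ) (μ : Measure ℝ) [IsFiniteMeasure μ] (K lam c : ℝ) (hlam : 0 < lam) (J : Finset ℤ) :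
    WE h J (fun j => μ.real (cell K lam c j)) ≤ (pm h μ).real {q | |df h q| ≤ h / lam} := by
  classical
  obtain ⟨S, hS⟩ : ∃ S : (Fin h → ℤ) × (Fin h → ℤ) → Set ((Fin h → ℝ) × (Fin h → ℝ)),
      S = fun q => (Set.univ.pi fun i => cell K lam c (q.1 i)) ×ˢ (Set.univ.pi fun i => cell K lam c (q.2 i)) := ⟨_, rfl⟩
  obtain ⟨T, hT⟩ : ∃ T, T = ((Fintype.piFinset (fun _ : Fin h => J)) ×ˢ (Fintype.piFinset (fun _ : Fin h => J))).filter
      (fun q => ∑ i, q.1 i = ∑ i, q.2 i) := ⟨_, rfl⟩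
  have h1 : WE h J (fun j => μ.real (cell K lam c j)) = ∑ q ∈ T, (pm h μ).real (S q) := by
    rw [hT, sum_filter, sum_product]
    unfold WE
    apply sum_congr rfl
    intro α _
    apply sum_congr rfl
    intro β _
    rw [hS]
    simp only
    unfold pm
    rw [measureReal_prod_prod, pi_real, pi_real]
  have h2 : ∑ q ∈ T, (pm h μ).real (S q) = (pm h μ).real (⋃ q ∈ T, S q) := by
    rw [measureReal_biUnion_finset]
    · intro q _ q' _ hqq
      rw [Function.onFun, Set.disjoint_left]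
      intro z hz hz'
      apply hqq
      rw [hS] at hz hz'
      obtain ⟨hz1, hz2⟩ := hz
      obtain ⟨hz3, hz4⟩ := hz'
      apply Prod.ext
      · funext i
        exact (hz1 i (Set.mem_univ _)).2.symm.trans (hz3 i (Set.mem_univ _)).2
      · funext i
        exact (hz2 i (Set.mem_univ _)).2.symm.trans (hz4 i (Set.mem_univ _)).2
    · intro q _
      rw [hS]
      exact (MeasurableSet.univ_pi fun i => cell_meas _ _ _ _).prod (MeasurableSet.univ_pi fun i => cell_meas _ _ _ _)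
  rw [h1, h2]
  apply measureReal_mono
  · intro z hz
    rw [Set.mem_iUnion₂] at hz
    obtain ⟨q, hq, hz⟩ := hz
    rw [hT, Finset.mem_filter] at hq
    rw [hS] at hz
    obtain ⟨hz1, hz2⟩ := hz
    have key : ∀ (α : Fin h → ℤ) (x : Fin h → ℝ), (∀ i, ⌊lam * x i + c⌋ = α i) →
        ((∑ i, α i : ℤ) : ℝ) ≤ lam * (∑ i, x i) + h * c ∧ lam * (∑ i, x i) + h * c ≤ ((∑ i, α i : ℤ) : ℝ) + h := by
      intro α x hx
      have e1 : lam * (∑ i, x i) + h * c = ∑ i, (lam * x i + c) := by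
        rw [sum_add_distrib, mul_sum, sum_const, card_univ, Fintype.card_fin, nsmul_eq_mul]
      have e2 : ((∑ i, α i : ℤ) : ℝ) + h = ∑ i, ((α i : ℝ) + 1) := by
        rw [sum_add_distrib, sum_const, card_univ, Fintype.card_fin, nsmul_eq_mul]
        push_cast
        ring
      rw [e1, e2]
      push_cast
      constructor
      · apply sum_le_sum
        intro i _
        rw [← hx i]
        exact Int.floor_le _
      · apply sum_le_sum
        intro i _
        rw [← hx i]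
        exact (Int.lt_floor_add_one _).le
    obtain ⟨a1, a2⟩ := key q.1 z.1 (fun i => (hz1 i (Set.mem_univ _)).2)
    obtain ⟨b1, b2⟩ := key q.2 z.2 (fun i => (hz2 i (Set.mem_univ _)).2)
    rw [hq.2] at a1 a2
    show |df h z| ≤ h / lam
    rw [le_div_iff₀ hlam]
    have e3 : |df h z| * lam = |lam * (∑ i, z.1 i) - lam * (∑ i, z.2 i)| := by
      have h9 : lam * (∑ i, z.1 i) - lam * (∑ i, z.2 i) = df h z * lam := by
        unfold df
        ring
      rw [h9, abs_mul, abs_of_pos hlam]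
    rw [e3, abs_le]
    constructor <;> linarith
  · exact measure_ne_top _ _

lemma WE_le (h : ℕ) (μ : Measure ℝ) [IsFiniteMeasure μ] (K lam c : ℝ) (hlam : 0 < lam) :
    WE h (vals K lam c) (fun j => μ.real (cell K lam c j)) ≤ (pm h μ).real {q | |df h q| ≤ h / lam} :=
  WE_le_gen h μ K lam c hlam _

/-- From families to one random integer part. -/
theorem one_law (h : ℕ) (μ : Measure ℝ) [IsFiniteMeasure μ]
    (hI : Integrable (fun ξ => ‖charFun μ ξ‖ ^ (2 * h))) (E : ℕ → ℤ → Prop)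
    (H : ∀ B U : ℕ, ∃ N₀ : ℕ, ∀ N : ℕ, N₀ ≤ N → ∀ (ι : Type) [Fintype ι] (v : ι → ℤ),
      (∀ i, v i ≤ B * N) →
      (En h v : ℝ) * N ≤ Real.log N ^ 1 * (Fintype.card ι : ℝ) ^ (2 * h) →
      ∀ S : Finset ι, (∀ i ∈ S, E N (v i)) → (S.card : ℝ) ≤ Fintype.card ι / Real.log N ^ U)
    (K B U : ℕ) : ∃ L₀ : ℝ, ∀ lam : ℝ, L₀ ≤ lam → ∀ c : ℝ, c ≤ B * lam →
      μ.real {x | x ∈ Set.Icc (-(K : ℝ)) K ∧ E ⌈lam⌉₊ ⌊lam * x + c⌋} ≤ μ.real Set.univ / Real.log lam ^ U := by
  classical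
  obtain ⟨m₀, hm₀⟩ : ∃ m₀, m₀ = μ.real (Set.Icc (-(K : ℝ)) K) := ⟨_, rfl⟩
  have hm₀0 : 0 ≤ m₀ := by rw [hm₀]; exact measureReal_nonneg
  have hmu : m₀ ≤ μ.real Set.univ := by
    rw [hm₀]
    exact measureReal_mono (Set.subset_univ _) (measure_ne_top _ _)
  rcases hm₀0.eq_or_lt with h0 | hpos
  · refine ⟨1, fun lam hlam c _ => ?_⟩
    have h1 : μ.real {x | x ∈ Set.Icc (-(K : ℝ)) K ∧ E ⌈lam⌉₊ ⌊lam * x + c⌋} ≤ m₀ := by
      rw [hm₀]
      exact measureReal_mono (fun x hx => hx.1) (measure_ne_top _ _)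
    rw [← h0] at h1
    refine h1.trans ?_
    have := Real.log_nonneg hlam
    positivity
  obtain ⟨I₀, hI₀⟩ : ∃ I₀, I₀ = ∫ ξ, ‖charFun μ ξ‖ ^ (2 * h) := ⟨_, rfl⟩
  have hI0 : 0 ≤ I₀ := by rw [hI₀]; exact integral_nonneg fun ξ => by positivity
  obtain ⟨N₀, hN₀⟩ := H (K + B) U
  obtain ⟨D, hD⟩ : ∃ D, D = 2 * h * I₀ / m₀ ^ (2 * h) := ⟨_, rfl⟩
  refine ⟨N₀ + Real.exp (D + 1) + 1, fun lam hlam c hc => ?_⟩
  have hexp := Real.exp_pos (D + 1)
  have hD0 : 0 ≤ D := by rw [hD]; positivity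
  have hlam1 : 1 ≤ lam := by
    have : (0 : ℝ) ≤ N₀ := Nat.cast_nonneg _
    linarith
  have hlam0 : 0 < lam := by linarith
  obtain ⟨N, hN⟩ : ∃ N, N = ⌈lam⌉₊ := ⟨_, rfl⟩
  have hN1 : lam ≤ N := by rw [hN]; exact Nat.le_ceil _
  have hN2 : (N : ℝ) ≤ 2 * lam := by
    have := Nat.ceil_lt_add_one hlam0.le
    rw [hN]
    linarith
  have hNN : N₀ ≤ N := by
    have : (N₀ : ℝ) ≤ N := by linarith
    exact_mod_cast this
  have hlogl : Real.log lam ≤ Real.log N := Real.log_le_log hlam0 hN1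
  have hlogD : D + 1 ≤ Real.log lam := by
    rw [Real.le_log_iff_exp_le hlam0]
    have : (0 : ℝ) ≤ N₀ := Nat.cast_nonneg _
    linarith
  rw [← hN]
  have hsum : ∑ j ∈ vals K lam c, μ.real (cell K lam c j) = m₀ := by
    have h1 := sum_cells μ K lam c hlam0 (fun _ => True)
    simp only [Finset.filter_true, and_true] at h1
    rw [h1, hm₀]
    rfl
  have hval : ∀ j ∈ vals K lam c, j ≤ (((K + B : ℕ) : ℤ) * (N : ℤ)) := by
    intro j hj
    unfold vals at hj
    rw [Finset.mem_Icc] at hj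
    refine hj.2.trans ?_
    have h1 : (⌊lam * K + c⌋ : ℝ) ≤ ((((K + B : ℕ) : ℤ) * (N : ℤ) : ℤ) : ℝ) := by
      refine (Int.floor_le _).trans ?_
      push_cast
      have hB : (0 : ℝ) ≤ B := Nat.cast_nonneg _
      have hK : (0 : ℝ) ≤ K := Nat.cast_nonneg _
      nlinarith
    exact_mod_cast h1
  have key := weights h 1 U N (((K + B : ℕ) : ℤ) * (N : ℤ)) (E N) (Real.log N)
    (fun ι _ v hv hE S hS => hN₀ N hNN ι v hv hE S hS)
    (vals K lam c) hval (fun j => μ.real (cell K lam c j)) (fun j => measureReal_nonneg) (by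
      rw [hsum]
      have h2 := WE_le h μ K lam c hlam0
      rcases Nat.eq_zero_or_pos h with hh0 | hh
      · subst hh0
        exfalso
        simp only [Nat.mul_zero, pow_zero] at hI
        rw [integrable_const_iff] at hI
        rcases hI with h3 | h3
        · exact one_ne_zero h3
        · rw [isFiniteMeasure_iff] at h3
          simp at h3
      have h3 := energy_meas h μ hI (h / lam) (by positivity)
      rw [← hI₀] at h3
      have hmp : 0 < m₀ ^ (2 * h) := by positivity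
      calc WE h (vals K lam c) (fun j => μ.real (cell K lam c j)) * N ≤ (I₀ * (h / lam)) * (2 * lam) := by
            apply mul_le_mul (h2.trans h3) hN2 (Nat.cast_nonneg _) (by positivity)
        _ = D * m₀ ^ (2 * h) := by
            rw [hD]
            field_simp
        _ < Real.log N ^ 1 * m₀ ^ (2 * h) := by
            apply mul_lt_mul_of_pos_right _ hmp
            rw [pow_one]
            linarith)
  rw [sum_cells μ K lam c hlam0 (E N), hsum] at key
  refine key.trans ?_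
  have hl0 : 0 < Real.log lam := by linarith
  apply div_le_div₀ (by positivity) hmu (by positivity)
  exact pow_le_pow_left₀ hl0.le hlogl U

/-- From families to almost every point. -/
theorem ae_law (h : ℕ) (μ : Measure ℝ) [IsFiniteMeasure μ]
    (hI : Integrable (fun ξ => ‖charFun μ ξ‖ ^ (2 * h))) (E : ℕ → ℤ → Prop)
    (H : ∀ B U : ℕ, ∃ N₀ : ℕ, ∀ N : ℕ, N₀ ≤ N → ∀ (ι : Type) [Fintype ι] (v : ι → ℤ),
      (∀ i, v i ≤ B * N) →
      (En h v : ℝ) * N ≤ Real.log N ^ 1 * (Fintype.card ι : ℝ) ^ (2 * h) →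
      ∀ S : Finset ι, (∀ i ∈ S, E N (v i)) → (S.card : ℝ) ≤ Fintype.card ι / Real.log N ^ U)
    (lam c : ℕ → ℝ) (η : ℝ) (hη : 0 < η) (hlam : ∀ᶠ n : ℕ in atTop, Real.exp ((n : ℝ) ^ η) ≤ lam n)
    (B : ℝ) (hc : ∀ᶠ n : ℕ in atTop, c n ≤ B * lam n) :
    ∀ᵐ x ∂μ, ∀ᶠ n : ℕ in atTop, ¬ E ⌈lam n⌉₊ ⌊lam n * x + c n⌋ := by
  have key : ∀ K : ℕ, ∀ᵐ x ∂μ, ∀ᶠ n : ℕ in atTop,
      x ∉ {x : ℝ | x ∈ Set.Icc (-(K : ℝ)) K ∧ E ⌈lam n⌉₊ ⌊lam n * x + c n⌋} := by
    intro K
    obtain ⟨U, hU⟩ := exists_nat_ge (2 / η)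
    obtain ⟨L₀, hL⟩ := one_law h μ hI E H K ⌈B⌉₊ U
    obtain ⟨s, hs⟩ : ∃ s : ℕ → Set ℝ, s = fun n => {x : ℝ | x ∈ Set.Icc (-(K : ℝ)) K ∧ E ⌈lam n⌉₊ ⌊lam n * x + c n⌋} :=
      ⟨_, rfl⟩
    have hbig : ∀ᶠ n : ℕ in atTop, L₀ ≤ lam n := by
      have h1 : Tendsto (fun n : ℕ => Real.exp ((n : ℝ) ^ η)) atTop atTop :=
        Real.tendsto_exp_atTop.comp ((tendsto_rpow_atTop hη).comp tendsto_natCast_atTop_atTop)
      filter_upwards [hlam, h1.eventually_ge_atTop L₀] with n h2 h3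
      linarith
    have hbd : ∀ᶠ n : ℕ in atTop, μ.real (s n) ≤ μ.real Set.univ * (1 / (n : ℝ) ^ 2) := by
      filter_upwards [hbig, hlam, hc, eventually_ge_atTop 1] with n h2 h3 h4 h5
      have hn1 : (1 : ℝ) ≤ n := by exact_mod_cast h5
      have hn0 : (0 : ℝ) < n := by linarith
      have hl0 : 0 < lam n := (Real.exp_pos _).trans_le h3
      have h6 : (n : ℝ) ^ η ≤ Real.log (lam n) := by
        rw [Real.le_log_iff_exp_le hl0]
        exact h3
      have h7 := hL (lam n) h2 (c n) (h4.trans (mul_le_mul_of_nonneg_right (Nat.le_ceil B) hl0.le))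
      rw [hs]
      refine h7.trans ?_
      rw [div_eq_mul_one_div]
      apply mul_le_mul_of_nonneg_left _ measureReal_nonneg
      apply one_div_le_one_div_of_le (by positivity)
      calc (n : ℝ) ^ 2 = (n : ℝ) ^ (2 : ℝ) := by norm_cast
        _ ≤ (n : ℝ) ^ (η * U) := by
            apply Real.rpow_le_rpow_of_exponent_le hn1
            rw [div_le_iff₀ hη] at hU
            linarith
        _ = ((n : ℝ) ^ η) ^ U := by
            rw [Real.rpow_mul hn0.le, Real.rpow_natCast]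
        _ ≤ Real.log (lam n) ^ U := pow_le_pow_left₀ (by positivity) h6 U
    obtain ⟨n₀, hn₀⟩ := eventually_atTop.1 hbd
    have hsum : ∑' n, μ (s (n + n₀)) ≠ ⊤ := by
      have h1 : ∀ n, μ (s (n + n₀)) ≤ ENNReal.ofReal (μ.real Set.univ * (1 / ((n + n₀ : ℕ) : ℝ) ^ 2)) := by
        intro n
        have h2 := hn₀ (n + n₀) (by omega)
        rw [← ENNReal.ofReal_toReal (measure_ne_top μ (s (n + n₀)))]
        exact ENNReal.ofReal_le_ofReal h2
      have hsm : Summable (fun n : ℕ => μ.real Set.univ * (1 / ((n + n₀ : ℕ) : ℝ) ^ 2)) := by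
        apply Summable.mul_left
        exact (summable_nat_add_iff (f := fun n : ℕ => 1 / (n : ℝ) ^ 2) n₀).2
          (Real.summable_one_div_nat_pow.2 (by norm_num))
      refine ne_top_of_le_ne_top ?_ (ENNReal.tsum_le_tsum h1)
      rw [← ENNReal.ofReal_tsum_of_nonneg (fun n => by positivity) hsm]
      exact ENNReal.ofReal_ne_top
    have h8 := ae_eventually_notMem hsum
    filter_upwards [h8] with x hx
    rw [eventually_atTop] at hx ⊢
    obtain ⟨k, hk⟩ := hx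
    refine ⟨k + n₀, fun n hn hE => ?_⟩
    have h9 := hk (n - n₀) (by omega)
    rw [Nat.sub_add_cancel (by omega), hs] at h9
    exact h9 hE
  rw [← ae_all_iff] at key
  filter_upwards [key] with x hx
  obtain ⟨K, hK⟩ := exists_nat_ge |x|
  filter_upwards [hx K] with n hn hE
  exact hn ⟨abs_le.1 hK, hE⟩

end Pool.Agent.Run7.h582.FD
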