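import Pool.Agent.Run7.h582.FD.Wt2
import Pool.Agent.H560R3.GB.LamE
import Pool.Agent.N469.PT.Ws

set_option autoImplicit false

/-! The one shift estimate for random integers with nearly minimal additive energy (arbitrary laws). -/

namespace Pool.Agent.Run7.h582.FD
open Finset Filter Topology
open Pool.Agent.H373R2.T7 (lamI lamzI energy ev_L' ev_log')

/-- mean values over weights from mean values over families -/
theorem weights_mom (h N : ℕ) (Bnd : ℤ) (X Y : ℝ) (Φ : ℤ → ℝ)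
    (H : ∀ (x : ℕ) (s : ℕ → ℤ), (∀ m ∈ Icc 1 x, |s m| ≤ Bnd) →
      (energy h x s : ℝ) * N ≤ X * (x : ℝ) ^ (2 * h) → ∑ m ∈ Icc 1 x, Φ (s m) ≤ Y * x)
    (J : Finset ℤ) (hJ : ∀ j ∈ J, |j| ≤ Bnd) (p : ℤ → ℝ) (hp : ∀ j, 0 ≤ p j)
    (hE : WE h J p * N < X * (∑ j ∈ J, p j) ^ (2 * h)) :
    ∑ j ∈ J, p j * Φ j ≤ Y * ∑ j ∈ J, p j := by
  classical
  obtain ⟨n, hn⟩ : ∃ n : ℕ → ℤ → ℕ, n = fun (M : ℕ) j => ⌊p j * M⌋₊ := ⟨_, rfl⟩
  have hlim : ∀ j, Tendsto (fun M : ℕ => (n M j : ℝ) / M) atTop (𝓝 (p j)) := by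
    intro j
    rw [hn]
    exact floor_tendsto (p j) (hp j)
  have l1 : Tendsto (fun M : ℕ => ∑ j ∈ J, (n M j : ℝ) / M) atTop (𝓝 (∑ j ∈ J, p j)) :=
    tendsto_finsetSum _ fun j _ => hlim j
  have l2 : Tendsto (fun M : ℕ => ∑ j ∈ J, (n M j : ℝ) / M * Φ j) atTop (𝓝 (∑ j ∈ J, p j * Φ j)) :=
    tendsto_finsetSum _ fun j _ => (hlim j).mul_const _
  have l3 : Tendsto (fun M : ℕ => WE h J (fun j => (n M j : ℝ) / M) * N) atTop (𝓝 (WE h J p * N)) :=
    (WE_tendsto h J p _ hlim).mul_const _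
  have l4 : Tendsto (fun M : ℕ => X * (∑ j ∈ J, (n M j : ℝ) / M) ^ (2 * h)) atTop
      (𝓝 (X * (∑ j ∈ J, p j) ^ (2 * h))) := (l1.pow _).const_mul _
  have hev := l3.eventually_lt l4 hE
  refine le_of_tendsto_of_tendsto l2 (l1.const_mul Y) ?_
  filter_upwards [hev, eventually_ge_atTop 1] with M hM1 hM2
  have hM0 : (0 : ℝ) < M := by exact_mod_cast hM2
  obtain ⟨x, s, hx, hs, hc⟩ := enum J (n M)
  have e1 : (∑ j ∈ J, (n M j : ℝ) / M) = (x : ℝ) / M := by rw [hx, sum_div]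
  have hsum : ∑ m ∈ Icc 1 x, Φ (s m) = ∑ j ∈ J, (n M j : ℝ) * Φ j := by
    rw [← sum_fiberwise_of_maps_to (s := Icc 1 x) (t := J) (g := s) hs]
    apply sum_congr rfl
    intro j hj
    have h2 : ∀ m ∈ (Icc 1 x).filter (fun m => s m = j), Φ (s m) = Φ j := fun m hm => by rw [(mem_filter.1 hm).2]
    rw [sum_congr rfl h2, sum_const, hc j hj, nsmul_eq_mul]
  have key := H x s (fun m hm => hJ _ (hs m hm)) (by
    rw [energy_WE h x s J hs]
    have e3 : WE h J (fun j => (((Icc 1 x).filter (fun m => s m = j)).card : ℝ)) =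
        (M : ℝ) ^ (2 * h) * WE h J (fun j => (n M j : ℝ) / M) := by
      rw [← WE_mul]
      unfold WE
      apply sum_congr rfl
      intro α hα
      apply sum_congr rfl
      intro β hβ
      rw [Fintype.mem_piFinset] at hα hβ
      have h1 : ∀ j ∈ J, (((Icc 1 x).filter (fun m => s m = j)).card : ℝ) = (M : ℝ) * ((n M j : ℝ) / M) := by
        intro j hj
        rw [hc j hj]
        field_simp
      rw [prod_congr rfl (fun l _ => h1 _ (hα l)), prod_congr rfl (fun l _ => h1 _ (hβ l))]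
    rw [e3]
    rw [e1] at hM1
    have hMh : (0 : ℝ) < (M : ℝ) ^ (2 * h) := by positivity
    calc (M : ℝ) ^ (2 * h) * WE h J (fun j => (n M j : ℝ) / M) * N =
          (M : ℝ) ^ (2 * h) * (WE h J (fun j => (n M j : ℝ) / M) * N) := by ring
      _ ≤ (M : ℝ) ^ (2 * h) * (X * ((x : ℝ) / M) ^ (2 * h)) := mul_le_mul_of_nonneg_left hM1.le hMh.le
      _ = X * (x : ℝ) ^ (2 * h) := by
        rw [div_pow]
        field_simp)
  rw [hsum] at key
  rw [e1]
  have e2 : ∑ j ∈ J, (n M j : ℝ) / M * Φ j = (∑ j ∈ J, (n M j : ℝ) * Φ j) / M := by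
    rw [sum_div]
    apply sum_congr rfl
    intro j _
    ring
  rw [e2, div_le_iff₀ hM0]
  refine key.trans (le_of_eq ?_)
  field_simp

/-- a set of natural numbers, as a set of integers -/
def zs (Ω : Finset ℕ) : Finset ℤ := Ω.image (fun v : ℕ => (v : ℤ))

lemma sum_zs (Ω : Finset ℕ) (f : ℤ → ℝ) : ∑ j ∈ zs Ω, f j = ∑ v ∈ Ω, f (v : ℤ) := by
  unfold zs
  rw [sum_image]
  intro a _ b _ hab
  exact Int.ofNat.inj hab

/-- The laws `p` on the finite sets `Ω ⊆ [0, B N]` of nearly minimal additive energy of order `h`. -/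
structure EL (h C B N : ℕ) (Ω : Finset ℕ) (p : ℕ → ℝ) : Prop where
  nonneg : ∀ v, 0 ≤ p v
  sum : ∑ v ∈ Ω, p v = 1
  le : ∀ v ∈ Ω, v ≤ B * N
  en : WE h (zs Ω) (fun j => p j.toNat) * N ≤ Real.log N ^ C

lemma el_single {h C B N : ℕ} {Ω : Finset ℕ} {p : ℕ → ℝ} (H : EL h C B N Ω p) (v : ℕ) (hv : v ∈ Ω) :
    p v ^ (2 * h) ≤ WE h (zs Ω) (fun j => p j.toNat) := by
  classical
  have hJ : (v : ℤ) ∈ zs Ω := mem_image_of_mem _ hv
  have h0 : ∀ α : Fin h → ℤ, ∀ β : Fin h → ℤ, 0 ≤ (if ∑ i, α i = ∑ i, β i then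
      (∏ i, (fun j : ℤ => p j.toNat) (α i)) * ∏ i, (fun j : ℤ => p j.toNat) (β i) else 0) := by
    intro α β
    split_ifs
    · exact mul_nonneg (prod_nonneg fun i _ => H.nonneg _) (prod_nonneg fun i _ => H.nonneg _)
    · exact le_rfl
  unfold WE
  have h1 : (fun _ : Fin h => (v : ℤ)) ∈ Fintype.piFinset (fun _ : Fin h => zs Ω) := by
    rw [Fintype.mem_piFinset]
    exact fun _ => hJ
  refine le_trans ?_ (single_le_sum (fun α _ => sum_nonneg fun β _ => h0 α β) h1)
  refine le_trans ?_ (single_le_sum (fun β _ => h0 _ β) h1)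
  rw [if_pos rfl]
  simp only [Int.toNat_natCast, prod_const, card_univ, Fintype.card_fin]
  rw [two_mul, pow_add]

open Pool.Agent.N469.PT (OneLaw) in
theorem el_one (h C B : ℕ) (hh : 1 ≤ h) (Bc U : ℕ) : OneLaw (EL h C B) 1 Bc U := by
  classical
  obtain ⟨B0, hB0⟩ := Pool.Agent.H560R3.GB.lam_e h (Bc + B + 1) (C + 1) U
  refine ⟨Bc + B, B0, fun E => ?_⟩
  obtain ⟨N0, h0⟩ := hB0 E
  obtain ⟨N1, h1⟩ := ev_L' 2
  obtain ⟨N2, h2⟩ := ev_log' (C + 2 * h * U) 1
  refine ⟨N0 + N1 + N2 + 3, fun N hN Ω p hp cc hcc => ?_⟩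
  have hL := h1 N (by omega)
  have hW := h2 N (by omega)
  rw [one_mul] at hW
  have hN3 : (3 : ℝ) ≤ N := by exact_mod_cast (by omega : 3 ≤ N)
  have hN0 : (0 : ℝ) < N := by linarith
  have hL0 : 0 < Real.log (N : ℝ) := by linarith
  refine ⟨fun v _ => hp.nonneg v, hp.sum, ?_, ?_, ?_⟩
  · intro v hv
    have e1 := el_single hp v hv
    have e2 : p v ^ (2 * h) * N ≤ Real.log N ^ C := (mul_le_mul_of_nonneg_right e1 hN0.le).trans hp.en
    have hsN : √(N : ℝ) ≤ N := by
      rw [Real.sqrt_le_left (by linarith)]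
      nlinarith
    have e3 : Real.log (N : ℝ) ^ C * Real.log N ^ (2 * h * U) ≤ N := by
      rw [← pow_add]
      exact hW.trans hsN
    have e4 : p v ^ (2 * h) * Real.log N ^ (2 * h * U) ≤ 1 := by
      by_contra hcon
      push Not at hcon
      have e5 : (N : ℝ) < p v ^ (2 * h) * Real.log N ^ (2 * h * U) * N := by nlinarith
      have e6 : p v ^ (2 * h) * Real.log N ^ (2 * h * U) * N ≤ Real.log N ^ C * Real.log N ^ (2 * h * U) := by
        calc p v ^ (2 * h) * Real.log N ^ (2 * h * U) * N = (p v ^ (2 * h) * N) * Real.log N ^ (2 * h * U) := by ring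
          _ ≤ _ := mul_le_mul_of_nonneg_right e2 (by positivity)
      linarith
    rw [le_div_iff₀ (by positivity)]
    have e7 : (p v * Real.log N ^ U) ^ (2 * h) ≤ 1 := by
      rw [mul_pow, ← pow_mul, mul_comm U (2 * h)]
      exact e4
    have hpv := hp.nonneg v
    exact (pow_le_one_iff_of_nonneg (by positivity) (by omega)).1 e7
  · intro v hv
    have e1 := hp.le v hv
    calc cc + 1 * v ≤ Bc * N + B * N := by omega
      _ = _ := by ring
  · intro z hz1 hz2 Kc hKc G hG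
    obtain ⟨Φ, hΦ⟩ : ∃ Φ : ℤ → ℝ, Φ = fun j => |∑ n ∈ Icc 1 N, G n * (lamI ((n : ℤ) + (cc + j)) - lamzI z ((n : ℤ) + (cc + j)))| :=
      ⟨_, rfl⟩
    have key := weights_mom h N ((B : ℤ) * N) (Real.log N ^ (C + 1)) (Kc * (N / Real.log N ^ U)) Φ (by
      intro x s hs hE
      have hcc' : (cc : ℤ) ≤ Bc * N := by exact_mod_cast hcc
      have hcc0 : (0 : ℤ) ≤ cc := Int.natCast_nonneg _
      have hNz : (0 : ℤ) ≤ N := Int.natCast_nonneg _
      have e1 := h0 N (by omega) x (fun m => s m + cc) (fun m hm => by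
        have e1 := abs_le.1 (hs m hm)
        rw [abs_le]
        push_cast
        constructor <;> nlinarith [e1.1, e1.2]) (by
        have e2 : energy h x (fun m => s m + (cc : ℤ)) = energy h x s := by
          unfold energy
          congr 1
          apply filter_congr
          intro q _
          simp only [sum_add_distrib, add_left_inj]
        rw [e2]
        exact hE) N (by nlinarith) z hz1 hz2 (fun a => if a ∈ Icc 1 N then (((G a / Kc : ℝ)) : ℂ) else 0) (by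
        intro a
        split_ifs with ha
        · rw [Complex.norm_real, Real.norm_eq_abs, abs_div, abs_of_pos hKc, div_le_one hKc]
          exact hG a ha
        · simp)
      have e2 : ∀ m ∈ Icc 1 x, ‖∑ a ∈ Icc 1 N, (if a ∈ Icc 1 N then (((G a / Kc : ℝ)) : ℂ) else 0) *
          ((lamI ((a : ℤ) + (s m + cc)) - lamzI z ((a : ℤ) + (s m + cc)) : ℝ) : ℂ)‖ = Φ (s m) / Kc := by
        intro m _
        have e3 : ∑ a ∈ Icc 1 N, (if a ∈ Icc 1 N then (((G a / Kc : ℝ)) : ℂ) else 0) *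
            ((lamI ((a : ℤ) + (s m + cc)) - lamzI z ((a : ℤ) + (s m + cc)) : ℝ) : ℂ) =
            (((∑ a ∈ Icc 1 N, G a * (lamI ((a : ℤ) + (cc + s m)) - lamzI z ((a : ℤ) + (cc + s m)))) / Kc : ℝ) : ℂ) := by
          rw [sum_div]
          push_cast
          apply sum_congr rfl
          intro a ha
          rw [if_pos ha, add_comm (s m) (cc : ℤ)]
          ring
        rw [e3, Complex.norm_real, Real.norm_eq_abs, abs_div, abs_of_pos hKc, hΦ]
      rw [sum_congr rfl e2, ← sum_div, div_le_iff₀ hKc] at e1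
      refine e1.trans (le_of_eq ?_)
      ring) (zs Ω) (by
      intro j hj
      unfold zs at hj
      rw [mem_image] at hj
      obtain ⟨v, hv, rfl⟩ := hj
      rw [Nat.abs_cast]
      exact_mod_cast hp.le v hv) (fun j => p j.toNat) (fun j => hp.nonneg _) (by
      rw [sum_zs]
      simp only [Int.toNat_natCast]
      rw [hp.sum, one_pow, mul_one]
      refine hp.en.trans_lt ?_
      rw [pow_succ]
      have : 0 < Real.log (N : ℝ) ^ C := by positivity
      nlinarith)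
    rw [sum_zs, sum_zs] at key
    simp only [Int.toNat_natCast] at key
    rw [hp.sum, mul_one] at key
    refine le_trans (le_of_eq ?_) key
    apply sum_congr rfl
    intro v _
    rw [hΦ]
    simp only [one_mul]
    push_cast
    rfl

end Pool.Agent.Run7.h582.FD
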