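import Pool.Agent.Run7.h582.FD.Sys2

set_option autoImplicit false

/-! One random constant: from families of natural numbers of nearly minimal energy to almost every point of all measures
with Fourier decay (general form). -/

namespace Pool.Agent.Run7.h582.FD
open Finset Filter Topology MeasureTheory
open Pool.Agent.H373R2.T7 (energy ev_L' ev_log')

/-- mean values over weights from mean values over families with values in the same set -/
theorem weights_set (h N : ℕ) (X Y : ℝ) (Φ : ℤ → ℝ) (J : Finset ℤ)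
    (H : ∀ (x : ℕ) (s : ℕ → ℤ), (∀ m ∈ Icc 1 x, s m ∈ J) →
      (energy h x s : ℝ) * N ≤ X * (x : ℝ) ^ (2 * h) → ∑ m ∈ Icc 1 x, Φ (s m) ≤ Y * x)
    (p : ℤ → ℝ) (hp : ∀ j, 0 ≤ p j)
    (hE : WE h J p * N < X * (∑ j ∈ J, p j) ^ (2 * h)) :
    ∑ j ∈ J, p j * Φ j ≤ Y * ∑ j ∈ J, p j := by
  classical
  obtain ⟨n, hn⟩ : ∃ n : ℕ → ℤ → ℕ, n = fun (M : ℕ) j => ⌊p j * M⌋₊ := ⟨_, rfl⟩
  have hlim : ∀ j, Tendsto (fun M : ℕ => (n M j : ℝ) / M) atTop (𝓝 (p j)) := by
    intro j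
    rw [hn]
    exact floor_tendsto (p j) (hp j)
  have l1 : Tendsto (fun M : ℕ => ∑ j ∈ J, (n M j : ℝ) / M) atTop (𝓝 (∑ j ∈ J, p j)) :=
    tendsto_finsetSum _ fun j _ => hlim j
  have l2 : Tendsto (fun M : ℕ => ∑ j ∈ J, (n M j : ℝ) / M * Φ j) atTop (𝓝 (∑ j ∈ J, p j * Φ j)) :=
    tendsto_finsetSum _ fun j _ => (hlim j).mul_const _
  have l3 : Tendsto (fun M : ℕ => WE h J (fun j => (n M j : ℝ) / M) * N) atTop (𝓝 (WE h J p * N)) :=
    (WE_tendsto h J p _ hlim).mul_const _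
  have l4 : Tendsto (fun M : ℕ => X * (∑ j ∈ J, (n M j : ℝ) / M) ^ (2 * h)) atTop
      (𝓝 (X * (∑ j ∈ J, p j) ^ (2 * h))) := (l1.pow _).const_mul _
  have hev := l3.eventually_lt l4 hE
  refine le_of_tendsto_of_tendsto l2 (l1.const_mul Y) ?_
  filter_upwards [hev, eventually_ge_atTop 1] with M hM1 hM2
  have hM0 : (0 : ℝ) < M := by exact_mod_cast hM2
  obtain ⟨x, s, hx, hs, hc⟩ := enum J (n M)
  have e1 : (∑ j ∈ J, (n M j : ℝ) / M) = (x : ℝ) / M := by rw [hx, sum_div]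
  have hsum : ∑ m ∈ Icc 1 x, Φ (s m) = ∑ j ∈ J, (n M j : ℝ) * Φ j := by
    rw [← sum_fiberwise_of_maps_to (s := Icc 1 x) (t := J) (g := s) hs]
    apply sum_congr rfl
    intro j hj
    have h2 : ∀ m ∈ (Icc 1 x).filter (fun m => s m = j), Φ (s m) = Φ j := fun m hm => by rw [(mem_filter.1 hm).2]
    rw [sum_congr rfl h2, sum_const, hc j hj, nsmul_eq_mul]
  have key := H x s hs (by
    rw [energy_WE h x s J hs]
    have e3 : WE h J (fun j => (((Icc 1 x).filter (fun m => s m = j)).card : ℝ)) =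
        (M : ℝ) ^ (2 * h) * WE h J (fun j => (n M j : ℝ) / M) := by
      rw [← WE_mul]
      unfold WE
      apply sum_congr rfl
      intro α hα
      apply sum_congr rfl
      intro β hβ
      rw [Fintype.mem_piFinset] at hα hβ
      have h1 : ∀ j ∈ J, (((Icc 1 x).filter (fun m => s m = j)).card : ℝ) = (M : ℝ) * ((n M j : ℝ) / M) := by
        intro j hj
        rw [hc j hj]
        field_simp
      rw [prod_congr rfl (fun l _ => h1 _ (hα l)), prod_congr rfl (fun l _ => h1 _ (hβ l))]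
    rw [e3]
    rw [e1] at hM1
    have hMh : (0 : ℝ) < (M : ℝ) ^ (2 * h) := by positivity
    calc (M : ℝ) ^ (2 * h) * WE h J (fun j => (n M j : ℝ) / M) * N =
          (M : ℝ) ^ (2 * h) * (WE h J (fun j => (n M j : ℝ) / M) * N) := by ring
      _ ≤ (M : ℝ) ^ (2 * h) * (X * ((x : ℝ) / M) ^ (2 * h)) := mul_le_mul_of_nonneg_left hM1.le hMh.le
      _ = X * (x : ℝ) ^ (2 * h) := by
        rw [div_pow]
        field_simp)
  rw [hsum] at key
  rw [e1]
  have e2 : ∑ j ∈ J, (n M j : ℝ) / M * Φ j = (∑ j ∈ J, (n M j : ℝ) * Φ j) / M := by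
    rw [sum_div]
    apply sum_congr rfl
    intro j _
    ring
  rw [e2, div_le_iff₀ hM0]
  refine key.trans (le_of_eq ?_)
  field_simp

open Classical in
/-- `P N a` holds for almost all members `a` of every family of natural numbers of nearly minimal energy of order `h` -/
def Thin (h : ℕ) (P : ℕ → ℕ → Prop) : Prop :=
  ∀ B C U : ℕ, ∃ N₀ : ℕ, ∀ N : ℕ, N₀ ≤ N → ∀ (x : ℕ) (f : ℕ → ℕ), (∀ m ∈ Icc 1 x, f m ≤ B * N) →
    (energy h x (fun m => (f m : ℤ)) : ℝ) * N ≤ Real.log N ^ C * (x : ℝ) ^ (2 * h) →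
    (((Icc 1 x).filter fun m => ¬ P N (f m)).card : ℝ) ≤ x / Real.log N ^ U

open Classical in
/-- one translation -/
lemma thin_law {h C B N : ℕ} {Ω : Finset ℕ} {p : ℕ → ℝ} (hp : EL h C B N Ω p) (hL : 1 < Real.log N) (U : ℕ)
    (Q : ℕ → Prop) (τ : ℕ) (H : ∀ (x : ℕ) (f : ℕ → ℕ), (∀ m ∈ Icc 1 x, f m ≤ B * N) →
      (energy h x (fun m => (f m : ℤ)) : ℝ) * N ≤ Real.log N ^ (C + 1) * (x : ℝ) ^ (2 * h) →
      (((Icc 1 x).filter fun m => ¬ Q (τ + f m)).card : ℝ) ≤ x / Real.log N ^ U) :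
    ∑ v ∈ Ω.filter (fun v => ¬ Q (τ + v)), p v ≤ 1 / Real.log N ^ U := by
  have key := weights_set h N (Real.log N ^ (C + 1)) (1 / Real.log N ^ U)
    (fun j => if ¬ Q (τ + j.toNat) then 1 else 0) (zs Ω) (by
      intro x s hs hE
      have h0 : ∀ m ∈ Icc 1 x, 0 ≤ s m ∧ (s m).toNat ≤ B * N := by
        intro m hm
        have h1 := hs m hm
        unfold zs at h1
        rw [mem_image] at h1
        obtain ⟨v, hv, h2⟩ := h1
        rw [← h2]
        exact ⟨Int.natCast_nonneg _, by rw [Int.toNat_natCast]; exact hp.le v hv⟩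
      have h1 := H x (fun m => (s m).toNat) (fun m hm => (h0 m hm).2) (by
        have e2 : energy h x (fun m => (((s m).toNat : ℕ) : ℤ)) = energy h x s := by
          unfold energy
          congr 1
          apply filter_congr
          intro q hq
          rw [mem_product, Fintype.mem_piFinset, Fintype.mem_piFinset] at hq
          have h1 : ∀ m ∈ Icc 1 x, (((s m).toNat : ℕ) : ℤ) = s m := fun m hm =>
            Int.toNat_of_nonneg (h0 m hm).1
          rw [sum_congr rfl (fun j _ => h1 _ (hq.1 j)), sum_congr rfl (fun j _ => h1 _ (hq.2 j))]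
        rw [e2]
        exact hE)
      rw [← sum_filter, sum_const, nsmul_eq_mul, mul_one]
      refine h1.trans (le_of_eq ?_)
      ring) (fun j => p j.toNat) (fun j => hp.nonneg _) (by
      rw [sum_zs]
      simp only [Int.toNat_natCast]
      rw [hp.sum, one_pow, mul_one]
      refine hp.en.trans_lt ?_
      rw [pow_succ]
      have : 0 < Real.log (N : ℝ) ^ C := by positivity
      nlinarith)
  rw [sum_zs, sum_zs] at key
  simp only [Int.toNat_natCast] at key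
  rw [hp.sum, mul_one] at key
  refine le_trans (le_of_eq ?_) key
  rw [sum_filter]
  apply sum_congr rfl
  intro v _
  split_ifs <;> simp

/-- one scale -/
theorem thin_one (h : ℕ) (P : ℕ → ℕ → Prop) (HP : Thin h P) (μ : Measure ℝ) [IsFiniteMeasure μ]
    (hI : Integrable (fun ξ => ‖charFun μ ξ‖ ^ (2 * h))) (V W B T K : ℕ) (hK : 1 ≤ K) :
    ∃ N₀ : ℕ, ∀ N : ℕ, N₀ ≤ N → ∀ lam c : ℝ,
      (0 ≤ c ∧ c ≤ B * N ∧ lam ≤ B * N ∧ (N : ℝ) ≤ lam * Real.log N ^ T) →
      μ.real {x | x ∈ Set.Icc (1 / (K : ℝ)) K ∧ ∃ a : ℕ, |(a : ℝ) - (lam * x + c)| ≤ Real.log N ^ W ∧ ¬ P N a} ≤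
      (μ.real (Set.Icc (1 / (K : ℝ)) K)) / Real.log N ^ V := by
  classical
  by_cases hm : 0 < μ.real (Set.Icc (1 / (K : ℝ)) K)
  swap
  · have hz : μ.real (Set.Icc (1 / (K : ℝ)) K) = 0 := le_antisymm (not_lt.1 hm) measureReal_nonneg
    refine ⟨0, fun N _ lam c _ => ?_⟩
    rw [hz, zero_div, ← hz]
    exact measureReal_mono (fun x hx => hx.1) (measure_ne_top _ _)
  · obtain ⟨N1, h1⟩ := el_law μ h hI K T (B * K + B) hm
    obtain ⟨N2, h2⟩ := HP (B * K + B + 1) (T + 2) (V + (W + 1))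
    obtain ⟨N3, h3⟩ := ev_L' 8
    obtain ⟨N4, h4⟩ := ev_log' (W + T + 1) K
    refine ⟨N1 + N2 + N3 + N4 + 3, fun N hN lam c hlc => ?_⟩
    have hL := h3 N (by omega)
    have hW := h4 N (by omega)
    have hN3 : (3 : ℝ) ≤ N := by exact_mod_cast (by omega : 3 ≤ N)
    have hN0 : (0 : ℝ) < N := by linarith
    have h2' := h2 N (by omega)
    have h1' := h1 N (by omega) lam
    obtain ⟨L, hLd⟩ : ∃ L : ℝ, L = Real.log N := ⟨_, rfl⟩
    rw [← hLd] at hL hW hlc h2' h1' ⊢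
    have hL0 : 0 < L := by linarith
    have hLW1 : 1 ≤ L ^ W := one_le_pow₀ (by linarith)
    obtain ⟨Q, hQ⟩ : ∃ Q : ℕ, Q = ⌈L ^ W⌉₊ := ⟨_, rfl⟩
    have hQ1 : L ^ W ≤ Q := by rw [hQ]; exact Nat.le_ceil _
    have hQ2 : (Q : ℝ) ≤ L ^ W + 1 := by
      rw [hQ]
      exact (Nat.ceil_lt_add_one (by positivity)).le
    have hQ3 : ((2 * Q + 2 : ℕ) : ℝ) ≤ L ^ (W + 1) := by
      rw [pow_succ]
      push_cast
      nlinarith
    have hK0 : (0 : ℝ) < K := by exact_mod_cast (by omega : 0 < K)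
    have hK1 : (1 : ℝ) ≤ K := by exact_mod_cast hK
    have hsN : √(N : ℝ) ≤ N := by
      rw [Real.sqrt_le_left (by linarith)]
      nlinarith
    have hKL : K * L ^ (W + T + 1) ≤ N := hW.trans hsN
    have hlam0 : 0 < lam := by
      by_contra hcon
      push Not at hcon
      have e1 := hlc.2.2.2
      have e2 : lam * L ^ T ≤ 0 := mul_nonpos_of_nonpos_of_nonneg hcon (by positivity)
      linarith
    have hlamQ : (Q : ℝ) ≤ lam * (1 / K) := by
      have e1 := hlc.2.2.2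
      have e2 : (K * L ^ (W + 1)) * L ^ T ≤ lam * L ^ T := by
        calc (K * L ^ (W + 1)) * L ^ T = K * L ^ (W + T + 1) := by ring
          _ ≤ N := hKL
          _ ≤ _ := e1
      have e3 : K * L ^ (W + 1) ≤ lam := le_of_mul_le_mul_right e2 (by positivity)
      rw [mul_one_div, le_div_iff₀ hK0]
      have e4 : (Q : ℝ) ≤ L ^ (W + 1) := by
        refine le_trans ?_ hQ3
        push_cast
        have : (0 : ℝ) ≤ Q := Nat.cast_nonneg _
        linarith
      nlinarith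
    have hQN : 2 * Q + 2 ≤ N := by
      have e1 : L ^ (W + 1) ≤ N := by
        refine le_trans ?_ hKL
        have e2 : L ^ (W + 1) ≤ L ^ (W + T + 1) := pow_le_pow_right₀ (by linarith) (by omega)
        have e3 : 0 ≤ L ^ (W + T + 1) := by positivity
        nlinarith
      exact_mod_cast hQ3.trans e1
    obtain ⟨Ω, hΩ⟩ : ∃ Ω : Finset ℕ, Ω = range ((B * K + B) * N + 1) := ⟨_, rfl⟩
    have hΩ1 : ∀ x ∈ Set.Icc (1 / (K : ℝ)) K, 0 ≤ ⌊lam * x + (c - Q)⌋ ∧ ⌊lam * x + (c - Q)⌋.toNat ∈ Ω := by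
      intro x hx
      have e1 : lam * (1 / K) ≤ lam * x := mul_le_mul_of_nonneg_left hx.1 hlam0.le
      have e2 : lam * x ≤ lam * K := mul_le_mul_of_nonneg_left hx.2 hlam0.le
      obtain ⟨e4, e5, e6, _⟩ := hlc
      have e7 : 0 ≤ ⌊lam * x + (c - Q)⌋ := by
        rw [Int.floor_nonneg]
        linarith
      refine ⟨e7, ?_⟩
      rw [hΩ, Finset.mem_range]
      have e8 : (⌊lam * x + (c - Q)⌋ : ℝ) ≤ (((B * K + B) * N : ℕ) : ℝ) := by
        refine (Int.floor_le _).trans ?_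
        push_cast
        have e9 : (0 : ℝ) ≤ Q := Nat.cast_nonneg _
        have e10 : lam * K ≤ (B * N) * K := mul_le_mul_of_nonneg_right e6 hK0.le
        linarith
      have e9 : ⌊lam * x + (c - Q)⌋ ≤ (((B * K + B) * N : ℕ) : ℤ) := by exact_mod_cast e8
      omega
    have hel := h1' (c - Q) hlam0 hlc.2.2.2 Ω hΩ1 (by
      intro v hv
      rw [hΩ, Finset.mem_range] at hv
      omega)
    -- one translation
    have key : ∀ τ : ℕ, τ < 2 * Q + 2 →
        μ.real {x | x ∈ Set.Icc (1 / (K : ℝ)) K ∧ ¬ P N (τ + ⌊lam * x + (c - Q)⌋.toNat)} ≤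
        (μ.real (Set.Icc (1 / (K : ℝ)) K)) / L ^ (V + (W + 1)) := by
      intro τ hτ
      have e1 := thin_law hel (by rw [← hLd]; linarith) (V + (W + 1)) (P N) τ (by
        intro x f hf hE
        rw [← hLd] at hE ⊢
        refine h2' x (fun m => τ + f m) (fun m hm => ?_) ?_
        · have := hf m hm
          calc τ + f m ≤ N + (B * K + B) * N := by omega
            _ = _ := by ring
        · have e2 : energy h x (fun m => ((τ + f m : ℕ) : ℤ)) = energy h x (fun m => (f m : ℤ)) := by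
            unfold energy
            congr 1
            apply filter_congr
            intro q _
            push_cast
            simp only [sum_add_distrib, add_right_inj]
          rw [e2]
          exact hE)
      have e2 : {x | x ∈ Set.Icc (1 / (K : ℝ)) K ∧ ¬ P N (τ + ⌊lam * x + (c - Q)⌋.toNat)} =
          ⋃ v ∈ Ω.filter (fun v => ¬ P N (τ + v)), cellI K lam (c - Q) v := by
        ext x
        simp only [Set.mem_ofPred_eq, Set.mem_iUnion, exists_prop, Finset.mem_filter]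
        constructor
        · rintro ⟨a1, a2⟩
          refine ⟨⌊lam * x + (c - Q)⌋.toNat, ⟨(hΩ1 x a1).2, a2⟩, a1, ?_⟩
          rw [Int.toNat_of_nonneg (hΩ1 x a1).1]
        · rintro ⟨v, ⟨_, a2⟩, a3, a4⟩
          refine ⟨a3, ?_⟩
          rw [a4, Int.toNat_natCast]
          exact a2
      rw [e2, measureReal_biUnion_finset]
      · rw [← sum_div, div_le_iff₀ hm, ← hLd] at e1
        refine e1.trans (le_of_eq ?_)
        ring
      · intro i _ j _ hij
        rw [Function.onFun, Set.disjoint_left]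
        intro x hx hy
        apply hij
        have h2 := hx.2.symm.trans hy.2
        exact_mod_cast h2
      · intro v _
        exact cellI_meas _ _ _ _
    have hsub : {x : ℝ | x ∈ Set.Icc (1 / (K : ℝ)) K ∧ ∃ a : ℕ, |(a : ℝ) - (lam * x + c)| ≤ L ^ W ∧ ¬ P N a} ⊆
        ⋃ τ ∈ range (2 * Q + 2), {x | x ∈ Set.Icc (1 / (K : ℝ)) K ∧ ¬ P N (τ + ⌊lam * x + (c - Q)⌋.toNat)} := by
      rintro x ⟨hx, a, ha, hbad⟩
      rw [Set.mem_iUnion₂]
      have e1 := abs_le.1 ha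
      have e2 := Int.floor_le (lam * x + (c - Q))
      have e3 := Int.lt_floor_add_one (lam * x + (c - Q))
      have e4 := (hΩ1 _ hx).1
      obtain ⟨f, hf⟩ : ∃ f : ℕ, ⌊lam * x + (c - Q)⌋ = (f : ℤ) := ⟨_, (Int.toNat_of_nonneg e4).symm⟩
      rw [hf] at e2 e3
      push_cast at e2 e3
      have e5 : (f : ℝ) ≤ a := by linarith [e1.1]
      have e6 : (a : ℝ) < f + 2 * Q + 2 := by linarith [e1.2]
      have e5' : f ≤ a := by exact_mod_cast e5
      have e6' : a < f + 2 * Q + 2 := by exact_mod_cast e6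
      refine ⟨a - f, Finset.mem_range.2 (by omega), hx, ?_⟩
      rw [hf, Int.toNat_natCast, Nat.sub_add_cancel e5']
      exact hbad
    refine (measureReal_mono hsub (measure_ne_top _ _)).trans ?_
    refine (measureReal_biUnion_finset_le _ _).trans ?_
    refine (sum_le_sum fun τ hτ => key τ (Finset.mem_range.1 hτ)).trans ?_
    rw [sum_const, nsmul_eq_mul, card_range]
    calc ((2 * Q + 2 : ℕ) : ℝ) * ((μ.real (Set.Icc (1 / (K : ℝ)) K)) / L ^ (V + (W + 1)))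
        ≤ L ^ (W + 1) * ((μ.real (Set.Icc (1 / (K : ℝ)) K)) / L ^ (V + (W + 1))) :=
          mul_le_mul_of_nonneg_right hQ3 (by positivity)
      _ = (μ.real (Set.Icc (1 / (K : ℝ)) K)) / L ^ V := by
          rw [pow_add L V]
          field_simp

/-- almost every point -/
theorem thin_ae (P : ℕ → ℕ → Prop) (HP : ∀ h, 1 ≤ h → Thin h P) (μ : Measure ℝ) [IsFiniteMeasure μ]
    (hI : ∃ p : ℕ, Integrable (fun ξ => ‖charFun μ ξ‖ ^ p)) (N : ℕ → ℕ) (lam c : ℕ → ℝ) (η : ℝ) (hη : 0 < η)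
    (hN : ∀ᶠ n : ℕ in atTop, Real.exp ((n : ℝ) ^ η) ≤ N n) (B T : ℕ)
    (hlc : ∀ᶠ n : ℕ in atTop, 0 ≤ c n ∧ c n ≤ B * N n ∧ lam n ≤ B * N n ∧
      (N n : ℝ) ≤ lam n * Real.log (N n) ^ T) (W : ℕ) :
    ∀ᵐ x ∂μ, 0 < x → ∀ᶠ n : ℕ in atTop, ∀ a : ℕ,
      |(a : ℝ) - (lam n * x + c n)| ≤ Real.log (N n) ^ W → P (N n) a := by
  classical
  obtain ⟨p, hp⟩ := hI
  have hI' : Integrable (fun ξ => ‖charFun μ ξ‖ ^ (2 * (p + 1))) := pow_ge μ p (2 * (p + 1)) (by omega) hp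
  have key : ∀ K : ℕ, ∀ᵐ x ∂μ, ∀ᶠ n : ℕ in atTop, x ∉
      {x : ℝ | x ∈ Set.Icc (1 / ((K + 1 : ℕ) : ℝ)) (K + 1 : ℕ) ∧ ∃ a : ℕ,
        |(a : ℝ) - (lam n * x + c n)| ≤ Real.log (N n) ^ W ∧ ¬ P (N n) a} := by
    intro K
    refine bc μ N η hη hN _ (μ.real (Set.Icc (1 / ((K + 1 : ℕ) : ℝ)) (K + 1 : ℕ))) measureReal_nonneg (fun V => ?_)
    obtain ⟨N₀, h0⟩ := thin_one (p + 1) P (HP _ (by omega)) μ hI' V W B T (K + 1) (by omega)
    refine ⟨N₀, ?_⟩
    filter_upwards [hlc] with n hn hNn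
    exact h0 (N n) hNn (lam n) (c n) hn
  rw [← ae_all_iff] at key
  filter_upwards [key] with x hx hpos
  obtain ⟨K1, hK1⟩ := exists_nat_ge x
  obtain ⟨K2, hK2⟩ := exists_nat_ge (1 / x)
  have hK : x ∈ Set.Icc (1 / ((K1 + K2 + 1 : ℕ) : ℝ)) (K1 + K2 + 1 : ℕ) := by
    have e1' : (K1 : ℝ) ≤ ((K1 + K2 + 1 : ℕ) : ℝ) := by exact_mod_cast (by omega)
    have e2' : (K2 : ℝ) ≤ ((K1 + K2 + 1 : ℕ) : ℝ) := by exact_mod_cast (by omega)
    refine ⟨?_, hK1.trans e1'⟩
    have e3 := hK2.trans e2'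
    rw [div_le_iff₀ hpos] at e3
    rw [div_le_iff₀ (by positivity)]
    linarith
  filter_upwards [hx (K1 + K2)] with n hn a ha
  by_contra hcon
  exact hn ⟨hK, a, ha, hcon⟩

end Pool.Agent.Run7.h582.FD
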