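import Pool.Agent.Run7.h582.FD.Law
import Pool.Agent.Run7.h582.FD.Mom
import Pool.Agent.N699.ST.Tra

set_option autoImplicit false

/-! Systems of linear forms whose constants are near `lam * x + c` for a random vector `x`. -/

namespace Pool.Agent.Run7.h582.FD
open Finset Filter Topology MeasureTheory
open Pool.Agent.N699.ST (AllS Fo Adm)

/-- the points `x ∈ [1/K, K]` with `⌊lam * x + c⌋ = v` -/
def cellI (K : ℕ) (lam c : ℝ) (v : ℕ) : Set ℝ := {x | x ∈ Set.Icc (1 / (K : ℝ)) K ∧ ⌊lam * x + c⌋ = (v : ℤ)}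

lemma cellI_meas (K : ℕ) (lam c : ℝ) (v : ℕ) : MeasurableSet (cellI K lam c v) := by
  have h1 : cellI K lam c v = Set.Icc (1 / (K : ℝ)) K ∩ ((fun x : ℝ => ⌊lam * x + c⌋) ⁻¹' {(v : ℤ)}) := rfl
  rw [h1]
  refine measurableSet_Icc.inter (Measurable.floor ?_ (measurableSet_singleton _))
  fun_prop

lemma cellI_sub (K : ℕ) (lam c : ℝ) (v : ℕ) : cellI K lam c v ⊆ cell K lam c v := by
  intro x hx
  refine ⟨⟨?_, hx.1.2⟩, hx.2⟩
  have h1 : (0 : ℝ) ≤ 1 / (K : ℝ) := by positivity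
  have h2 : (0 : ℝ) ≤ K := Nat.cast_nonneg _
  linarith [hx.1.1]

/-- a product measure of a set given by the cells -/
lemma boxes {s : ℕ} (μ : Fin s → Measure ℝ) [∀ i, IsFiniteMeasure (μ i)] (K : ℕ) (lam c : Fin s → ℝ)
    (Ω : Fin s → Finset ℕ) (hΩ : ∀ i, ∀ x ∈ Set.Icc (1 / (K : ℝ)) K, 0 ≤ ⌊lam i * x + c i⌋ ∧ ⌊lam i * x + c i⌋.toNat ∈ Ω i)
    (Bad : (Fin s → ℕ) → Prop) [DecidablePred Bad] :
    (Measure.pi μ).real {x | (∀ i, x i ∈ Set.Icc (1 / (K : ℝ)) K) ∧ Bad (fun i => ⌊lam i * x i + c i⌋.toNat)} =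
      ∑ α ∈ (Fintype.piFinset Ω).filter Bad, ∏ i, (μ i).real (cellI K (lam i) (c i) (α i)) := by
  classical
  have h1 : {x : Fin s → ℝ | (∀ i, x i ∈ Set.Icc (1 / (K : ℝ)) K) ∧ Bad (fun i => ⌊lam i * x i + c i⌋.toNat)} =
      ⋃ α ∈ (Fintype.piFinset Ω).filter Bad, Set.univ.pi (fun i => cellI K (lam i) (c i) (α i)) := by
    ext x
    simp only [Set.mem_ofPred_eq, Set.mem_iUnion, exists_prop, Finset.mem_filter, Fintype.mem_piFinset, Set.mem_pi,
      Set.mem_univ, forall_true_left]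
    constructor
    · rintro ⟨h1, h2⟩
      refine ⟨fun i => ⌊lam i * x i + c i⌋.toNat, ⟨fun i => (hΩ i _ (h1 i)).2, h2⟩, fun i => ⟨h1 i, ?_⟩⟩
      rw [Int.toNat_of_nonneg (hΩ i _ (h1 i)).1]
    · rintro ⟨α, ⟨_, h2⟩, h3⟩
      refine ⟨fun i => (h3 i).1, ?_⟩
      have : (fun i => ⌊lam i * x i + c i⌋.toNat) = α := by
        funext i
        rw [(h3 i).2, Int.toNat_natCast]
      rw [this]
      exact h2
  rw [h1, measureReal_biUnion_finset]
  · apply sum_congr rfl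
    intro α _
    unfold Measure.real
    rw [Measure.pi_pi, ENNReal.toReal_prod]
  · intro α _ β _ hαβ
    rw [Function.onFun, Set.disjoint_left]
    intro x hx hy
    apply hαβ
    funext i
    have h2 := (hx i (Set.mem_univ _)).2.symm.trans (hy i (Set.mem_univ _)).2
    exact_mod_cast h2
  · intro α _
    exact MeasurableSet.univ_pi fun i => cellI_meas _ _ _ _

lemma boxes_one (μ : Measure ℝ) [IsFiniteMeasure μ] (K : ℕ) (lam c : ℝ) (Ω : Finset ℕ)
    (hΩ : ∀ x ∈ Set.Icc (1 / (K : ℝ)) K, 0 ≤ ⌊lam * x + c⌋ ∧ ⌊lam * x + c⌋.toNat ∈ Ω) :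
    ∑ v ∈ Ω, μ.real (cellI K lam c v) = μ.real (Set.Icc (1 / (K : ℝ)) K) := by
  classical
  have h1 : Set.Icc (1 / (K : ℝ)) K = ⋃ v ∈ Ω, cellI K lam c v := by
    ext x
    simp only [Set.mem_iUnion, exists_prop]
    constructor
    · intro h1
      refine ⟨⌊lam * x + c⌋.toNat, (hΩ x h1).2, h1, ?_⟩
      rw [Int.toNat_of_nonneg (hΩ _ h1).1]
    · rintro ⟨v, _, h3⟩
      exact h3.1
  conv_rhs => rw [h1]
  rw [measureReal_biUnion_finset]
  · intro i _ j _ hij
    rw [Function.onFun, Set.disjoint_left]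
    intro x hx hy
    apply hij
    have h2 := hx.2.symm.trans hy.2
    exact_mod_cast h2
  · intro v _
    exact cellI_meas _ _ _ _

/-- the law of the integer part is of the class `EL` -/
lemma el_law (μ : Measure ℝ) [IsFiniteMeasure μ] (h : ℕ) (hI : Integrable (fun ξ => ‖charFun μ ξ‖ ^ (2 * h)))
    (K T B : ℕ) (hm : 0 < μ.real (Set.Icc (1 / (K : ℝ)) K)) : ∃ N₀ : ℕ, ∀ N : ℕ, N₀ ≤ N → ∀ lam c : ℝ, 0 < lam →
      (N : ℝ) ≤ lam * Real.log N ^ T → ∀ Ω : Finset ℕ,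
      (∀ x ∈ Set.Icc (1 / (K : ℝ)) K, 0 ≤ ⌊lam * x + c⌋ ∧ ⌊lam * x + c⌋.toNat ∈ Ω) → (∀ v ∈ Ω, v ≤ B * N) →
      EL h (T + 1) B N Ω (fun v => μ.real (cellI K lam c v) / μ.real (Set.Icc (1 / (K : ℝ)) K)) := by
  obtain ⟨m, hmd⟩ : ∃ m, m = μ.real (Set.Icc (1 / (K : ℝ)) K) := ⟨_, rfl⟩
  rw [← hmd] at hm ⊢
  obtain ⟨I₀, hI₀⟩ : ∃ I₀, I₀ = ∫ ξ, ‖charFun μ ξ‖ ^ (2 * h) := ⟨_, rfl⟩
  have hI0 : 0 ≤ I₀ := by rw [hI₀]; exact integral_nonneg fun ξ => by positivity
  obtain ⟨D, hD⟩ : ∃ D, D = (1 / m) ^ (2 * h) * (I₀ * h) := ⟨_, rfl⟩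
  have hD0 : 0 ≤ D := by rw [hD]; positivity
  obtain ⟨N₁, h1⟩ := Pool.Agent.H373R2.T7.ev_L' (D + 1)
  refine ⟨N₁ + 3, fun N hN lam c hlam hNl Ω hΩ hle => ?_⟩
  have hL := h1 N (by omega)
  have hL0 : 0 < Real.log (N : ℝ) := by linarith
  refine ⟨fun v => div_nonneg measureReal_nonneg hm.le, ?_, hle, ?_⟩
  · rw [← sum_div, boxes_one μ K lam c Ω hΩ, ← hmd, div_self hm.ne']
  · rcases Nat.eq_zero_or_pos h with hh0 | hh
    · subst hh0
      exfalso
      simp only [Nat.mul_zero, pow_zero] at hI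
      rw [integrable_const_iff] at hI
      rcases hI with h3 | h3
      · exact one_ne_zero h3
      · rw [isFiniteMeasure_iff] at h3
        simp at h3
    have e1 : (fun j : ℤ => (fun v : ℕ => μ.real (cellI K lam c v) / m) j.toNat) =
        fun j : ℤ => (1 / m) * μ.real (cellI K lam c j.toNat) := by
      funext j
      simp only
      ring
    rw [e1, WE_mul]
    have e2 : WE h (zs Ω) (fun j => μ.real (cellI K lam c j.toNat)) ≤
        WE h (zs Ω) (fun j => μ.real (cell K lam c j)) := by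
      apply WE_mono
      · intro j
        exact measureReal_nonneg
      · intro j hj
        unfold zs at hj
        rw [mem_image] at hj
        obtain ⟨v, _, rfl⟩ := hj
        rw [Int.toNat_natCast]
        exact measureReal_mono (cellI_sub K lam c v) (measure_ne_top _ _)
    have e3 := e2.trans ((WE_le_gen h μ K lam c hlam (zs Ω)).trans (energy_meas h μ hI (h / lam) (by positivity)))
    rw [← hI₀] at e3
    have hmh : 0 ≤ (1 / m) ^ (2 * h) := by positivity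
    calc (1 / m) ^ (2 * h) * WE h (zs Ω) (fun j => μ.real (cellI K lam c j.toNat)) * N
        ≤ (1 / m) ^ (2 * h) * (I₀ * (h / lam)) * (lam * Real.log N ^ T) := by
          apply mul_le_mul (mul_le_mul_of_nonneg_left e3 hmh) hNl (Nat.cast_nonneg _) (by positivity)
      _ = D * Real.log N ^ T := by
          rw [hD]
          field_simp
      _ ≤ Real.log N * Real.log N ^ T := mul_le_mul_of_nonneg_right (by linarith) (by positivity)
      _ = Real.log N ^ (T + 1) := by rw [pow_succ, mul_comm]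

lemma allS_mono {s : ℕ} {ε : ℝ} {A U U' N : ℕ} (hU : U ≤ U') (hN : 3 ≤ N) {a : Fin s → ℕ} (h : AllS ε A U' N a) :
    AllS ε A U N a := by
  intro j d hj hd had
  obtain ⟨S, h1, h2, h3, h4⟩ := h j d hj hd had
  refine ⟨S, h1, h2, h3.trans ?_, h4⟩
  have hL : 1 ≤ Real.log N := by
    rw [Real.le_log_iff_exp_le (by exact_mod_cast (by omega : 0 < N))]
    have : (3 : ℝ) ≤ N := by exact_mod_cast hN
    linarith [Real.exp_one_lt_d9]
  exact div_le_div_of_nonneg_left (Nat.cast_nonneg _) (by positivity) (pow_le_pow_right₀ hL hU)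

open Classical in
/-- one scale -/
theorem sys_one (s : ℕ) (hs : 1 ≤ s) (μ : Fin s → Measure ℝ) [∀ i, IsFiniteMeasure (μ i)] (h : ℕ) (hh : 1 ≤ h)
    (hI : ∀ i, Integrable (fun ξ => ‖charFun (μ i) ξ‖ ^ (2 * h))) (A U V W B T K : ℕ) (hK : 1 ≤ K) (ε : ℝ) (hε : 0 < ε) :
    ∃ N₀ : ℕ, ∀ N : ℕ, N₀ ≤ N → ∀ lam c : Fin s → ℝ,
      (∀ i, 0 ≤ c i ∧ c i ≤ B * N ∧ lam i ≤ B * N ∧ (N : ℝ) ≤ lam i * Real.log N ^ T) →
      (Measure.pi μ).real {x | (∀ i, x i ∈ Set.Icc (1 / (K : ℝ)) K) ∧ ∃ a : Fin s → ℕ,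
        (∀ i, |(a i : ℝ) - (lam i * x i + c i)| ≤ Real.log N ^ W) ∧ ¬ AllS ε A U N a} ≤
      (∏ i, (μ i).real (Set.Icc (1 / (K : ℝ)) K)) / Real.log N ^ V := by
  by_cases hm : ∀ i, 0 < (μ i).real (Set.Icc (1 / (K : ℝ)) K)
  swap
  · push Not at hm
    obtain ⟨i₀, hi₀⟩ := hm
    have hz : (μ i₀).real (Set.Icc (1 / (K : ℝ)) K) = 0 := le_antisymm hi₀ measureReal_nonneg
    refine ⟨0, fun N _ lam c _ => ?_⟩
    have hp : ∏ i, (μ i).real (Set.Icc (1 / (K : ℝ)) K) = 0 := prod_eq_zero (mem_univ i₀) hz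
    rw [hp, zero_div]
    have h1 : (Measure.pi μ).real (Set.univ.pi fun _ : Fin s => Set.Icc (1 / (K : ℝ)) K) = 0 := by
      unfold Measure.real at hp ⊢
      rw [Measure.pi_pi, ENNReal.toReal_prod]
      exact hp
    rw [← h1]
    apply measureReal_mono
    · intro x hx
      exact fun i _ => hx.1 i
    · exact measure_ne_top _ _
  · choose N1 h1 using fun i => el_law (μ i) h (hI i) K T (B * K + B) (hm i)
    obtain ⟨U', hU'⟩ : ∃ U', U' = U + V + (W + 1) * s := ⟨_, rfl⟩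
    obtain ⟨N2, h2⟩ := Pool.Agent.N699.ST.ws_all s hs (fun _ => EL h (T + 1) (B * K + B)) (fun _ => 1)
      (fun _ => le_rfl) 1 U' A _ rfl ε hε (fun i => el_one h (T + 1) (B * K + B) hh 1 _)
    obtain ⟨N3, h3⟩ := Pool.Agent.H373R2.T7.ev_L' 8
    obtain ⟨N4, h4⟩ := Pool.Agent.H373R2.T7.ev_log' (W + T + 1) K
    refine ⟨∑ i, N1 i + N2 + N3 + N4 + 3, fun N hN lam c hlc => ?_⟩
    have hni : ∀ i, N1 i ≤ N := fun i => by
      have := single_le_sum (f := N1) (fun i _ => Nat.zero_le _) (mem_univ i)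
      omega
    have hL := h3 N (by omega)
    have hW := h4 N (by omega)
    have hN3 : (3 : ℝ) ≤ N := by exact_mod_cast (by omega : 3 ≤ N)
    have hN0 : (0 : ℝ) < N := by linarith
    obtain ⟨L, hLd⟩ : ∃ L : ℝ, L = Real.log N := ⟨_, rfl⟩
    rw [← hLd] at hL hW hlc ⊢
    have hL0 : 0 < L := by linarith
    have hLW1 : 1 ≤ L ^ W := one_le_pow₀ (by linarith)
    obtain ⟨Q, hQ⟩ : ∃ Q : ℕ, Q = ⌈L ^ W⌉₊ := ⟨_, rfl⟩
    have hQ1 : L ^ W ≤ Q := by rw [hQ]; exact Nat.le_ceil _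
    have hQ2 : (Q : ℝ) ≤ L ^ W + 1 := by
      rw [hQ]
      exact (Nat.ceil_lt_add_one (by positivity)).le
    have hQ3 : ((2 * Q + 2 : ℕ) : ℝ) ≤ L ^ (W + 1) := by
      rw [pow_succ]
      push_cast
      nlinarith
    have hK0 : (0 : ℝ) < K := by exact_mod_cast (by omega : 0 < K)
    have hK1 : (1 : ℝ) ≤ K := by exact_mod_cast hK
    -- `N` is much larger than `Q`
    have hsN : √(N : ℝ) ≤ N := by
      rw [Real.sqrt_le_left (by linarith)]
      nlinarith
    have hKL : K * L ^ (W + T + 1) ≤ N := hW.trans hsN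
    have hlam0 : ∀ i, 0 < lam i := by
      intro i
      by_contra hcon
      push Not at hcon
      have e1 := (hlc i).2.2.2
      have e2 : lam i * L ^ T ≤ 0 := mul_nonpos_of_nonpos_of_nonneg hcon (by positivity)
      linarith
    have hlamQ : ∀ i, (Q : ℝ) ≤ lam i * (1 / K) := by
      intro i
      have e1 := (hlc i).2.2.2
      have e2 : (K * L ^ (W + 1)) * L ^ T ≤ lam i * L ^ T := by
        calc (K * L ^ (W + 1)) * L ^ T = K * L ^ (W + T + 1) := by ring
          _ ≤ N := hKL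
          _ ≤ _ := e1
      have e3 : K * L ^ (W + 1) ≤ lam i := le_of_mul_le_mul_right e2 (by positivity)
      rw [mul_one_div, le_div_iff₀ hK0]
      have e4 : (Q : ℝ) ≤ L ^ (W + 1) := by
        refine le_trans ?_ hQ3
        push_cast
        have : (0 : ℝ) ≤ Q := Nat.cast_nonneg _
        linarith
      nlinarith
    have hQN : 2 * Q + 2 ≤ N := by
      have e1 : L ^ (W + 1) ≤ N := by
        refine le_trans ?_ hKL
        have e2 : L ^ (W + 1) ≤ L ^ (W + T + 1) := pow_le_pow_right₀ (by linarith) (by omega)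
        have e3 : 0 ≤ L ^ (W + T + 1) := by positivity
        nlinarith
      exact_mod_cast hQ3.trans e1
    -- the laws
    obtain ⟨Ω, hΩ⟩ : ∃ Ω : Finset ℕ, Ω = range ((B * K + B) * N + 1) := ⟨_, rfl⟩
    have hΩ1 : ∀ i, ∀ x ∈ Set.Icc (1 / (K : ℝ)) K, 0 ≤ ⌊lam i * x + (c i - Q)⌋ ∧ ⌊lam i * x + (c i - Q)⌋.toNat ∈ Ω := by
      intro i x hx
      have e1 : lam i * (1 / K) ≤ lam i * x := mul_le_mul_of_nonneg_left hx.1 (hlam0 i).le
      have e2 : lam i * x ≤ lam i * K := mul_le_mul_of_nonneg_left hx.2 (hlam0 i).le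
      have e3 := hlamQ i
      obtain ⟨e4, e5, e6, _⟩ := hlc i
      have e7 : 0 ≤ ⌊lam i * x + (c i - Q)⌋ := by
        rw [Int.floor_nonneg]
        linarith
      refine ⟨e7, ?_⟩
      rw [hΩ, Finset.mem_range]
      have e8 : (⌊lam i * x + (c i - Q)⌋ : ℝ) ≤ (((B * K + B) * N : ℕ) : ℝ) := by
        refine (Int.floor_le _).trans ?_
        push_cast
        have e9 : (0 : ℝ) ≤ Q := Nat.cast_nonneg _
        have e10 : lam i * K ≤ (B * N) * K := mul_le_mul_of_nonneg_right e6 hK0.le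
        linarith
      have e9 : ⌊lam i * x + (c i - Q)⌋ ≤ (((B * K + B) * N : ℕ) : ℤ) := by exact_mod_cast e8
      omega
    have hel : ∀ i, EL h (T + 1) (B * K + B) N Ω (fun v => (μ i).real (cellI K (lam i) (c i - Q) v) /
        (μ i).real (Set.Icc (1 / (K : ℝ)) K)) := by
      intro i
      refine h1 i N (hni i) (lam i) (c i - Q) (hlam0 i) (by rw [← hLd]; exact (hlc i).2.2.2) Ω (hΩ1 i) ?_
      intro v hv
      rw [hΩ, Finset.mem_range] at hv
      omega
    -- one translation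
    have key : ∀ τ : Fin s → ℕ, (∀ i, τ i < 2 * Q + 2) →
        (Measure.pi μ).real {x | (∀ i, x i ∈ Set.Icc (1 / (K : ℝ)) K) ∧
          ¬ AllS ε A U' N (fun i => τ i + 1 * ⌊lam i * x i + (c i - Q)⌋.toNat)} ≤
        (∏ i, (μ i).real (Set.Icc (1 / (K : ℝ)) K)) / L ^ U' := by
      intro τ hτ
      have e1 := h2 N (by omega) (fun _ => Ω) _ hel (fun i v _ => (hel i).nonneg v) τ (fun i => by
        have := hτ i
        omega)
      have e2 := boxes μ K lam (fun i => c i - Q) (fun _ => Ω) hΩ1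
        (fun α => ¬ AllS ε A U' N (fun i => τ i + 1 * α i))
      rw [e2]
      have hP : 0 < ∏ i, (μ i).real (Set.Icc (1 / (K : ℝ)) K) := prod_pos fun i _ => hm i
      have e3 : ∑ α ∈ (Fintype.piFinset fun _ : Fin s => Ω).filter (fun α => ¬ AllS ε A U' N (fun i => τ i + 1 * α i)),
          ∏ i, (μ i).real (cellI K (lam i) (c i - Q) (α i)) =
          (∏ i, (μ i).real (Set.Icc (1 / (K : ℝ)) K)) *
          ∑ α ∈ (Fintype.piFinset fun _ : Fin s => Ω), (if ¬ AllS ε A U' N (fun i => τ i + 1 * α i) then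
            ∏ i, ((μ i).real (cellI K (lam i) (c i - Q) (α i)) / (μ i).real (Set.Icc (1 / (K : ℝ)) K)) else 0) := by
        rw [sum_filter, mul_sum]
        apply sum_congr rfl
        intro α _
        split_ifs
        · rw [mul_zero]
        · rw [← prod_mul_distrib]
          apply prod_congr rfl
          intro i _
          have := (hm i).ne'
          field_simp
      rw [e3]
      rw [← hLd] at e1
      refine (mul_le_mul_of_nonneg_left e1 hP.le).trans (le_of_eq ?_)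
      ring
    -- all the translations
    have hsub : {x : Fin s → ℝ | (∀ i, x i ∈ Set.Icc (1 / (K : ℝ)) K) ∧ ∃ a : Fin s → ℕ,
        (∀ i, |(a i : ℝ) - (lam i * x i + c i)| ≤ L ^ W) ∧ ¬ AllS ε A U N a} ⊆
        ⋃ τ ∈ Fintype.piFinset (fun _ : Fin s => range (2 * Q + 2)),
          {x | (∀ i, x i ∈ Set.Icc (1 / (K : ℝ)) K) ∧
          ¬ AllS ε A U' N (fun i => τ i + 1 * ⌊lam i * x i + (c i - Q)⌋.toNat)} := by
      rintro x ⟨hx, a, ha, hbad⟩
      rw [Set.mem_iUnion₂]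
      have e0 : ∀ i, ∃ t : ℕ, t < 2 * Q + 2 ∧ a i = t + 1 * ⌊lam i * x i + (c i - Q)⌋.toNat := by
        intro i
        have e1 := abs_le.1 (ha i)
        have e2 := Int.floor_le (lam i * x i + (c i - Q))
        have e3 := Int.lt_floor_add_one (lam i * x i + (c i - Q))
        have e4 := (hΩ1 i _ (hx i)).1
        obtain ⟨f, hf⟩ : ∃ f : ℕ, ⌊lam i * x i + (c i - Q)⌋ = (f : ℤ) := ⟨_, (Int.toNat_of_nonneg e4).symm⟩
        rw [hf] at e2 e3
        push_cast at e2 e3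
        have e5 : (f : ℝ) ≤ a i := by linarith [e1.1]
        have e6 : (a i : ℝ) < f + 2 * Q + 2 := by linarith [e1.2]
        have e5' : f ≤ a i := by exact_mod_cast e5
        have e6' : a i < f + 2 * Q + 2 := by exact_mod_cast e6
        refine ⟨a i - f, by omega, ?_⟩
        rw [hf, Int.toNat_natCast]
        omega
      choose t ht1 ht2 using e0
      refine ⟨t, ?_, hx, ?_⟩
      · rw [Fintype.mem_piFinset]
        exact fun i => Finset.mem_range.2 (ht1 i)
      · have e1 : (fun i => t i + 1 * ⌊lam i * x i + (c i - Q)⌋.toNat) = a := by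
          funext i
          exact (ht2 i).symm
        rw [e1]
        exact fun hcon => hbad (allS_mono (by omega) (by omega) hcon)
    refine (measureReal_mono hsub (measure_ne_top _ _)).trans ?_
    refine (measureReal_biUnion_finset_le _ _).trans ?_
    refine (sum_le_sum fun τ hτ => key τ (fun i => Finset.mem_range.1 (Fintype.mem_piFinset.1 hτ i))).trans ?_
    rw [sum_const, nsmul_eq_mul, Fintype.card_piFinset, prod_const, card_univ, Fintype.card_fin, card_range]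
    have hP : 0 ≤ ∏ i, (μ i).real (Set.Icc (1 / (K : ℝ)) K) := prod_nonneg fun i _ => measureReal_nonneg
    have e1 : (((2 * Q + 2) ^ s : ℕ) : ℝ) ≤ L ^ ((W + 1) * s) := by
      rw [Nat.cast_pow, pow_mul]
      exact pow_le_pow_left₀ (by positivity) hQ3 s
    calc (((2 * Q + 2) ^ s : ℕ) : ℝ) * ((∏ i, (μ i).real (Set.Icc (1 / (K : ℝ)) K)) / L ^ U')
        ≤ L ^ ((W + 1) * s) * ((∏ i, (μ i).real (Set.Icc (1 / (K : ℝ)) K)) / L ^ U') :=
          mul_le_mul_of_nonneg_right e1 (by positivity)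
      _ = (∏ i, (μ i).real (Set.Icc (1 / (K : ℝ)) K)) / L ^ (U + V) := by
          rw [hU', pow_add L (U + V)]
          field_simp
      _ ≤ _ := by
          apply div_le_div_of_nonneg_left hP (by positivity)
          exact pow_le_pow_right₀ (by linarith) (by omega)

end Pool.Agent.Run7.h582.FD
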