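import Pool.Agent.Run7.h582.FD.Sys
import Pool.Agent.Run7.h582.FD.Decay

set_option autoImplicit false

/-! Systems of linear forms whose constants are near `lam * x + c`: almost every vector `x`. -/

namespace Pool.Agent.Run7.h582.FD
open Finset Filter Topology MeasureTheory
open Pool.Agent.N699.ST (AllS Fo Adm)

lemma pow_ge (μ : Measure ℝ) [IsFiniteMeasure μ] (p q : ℕ) (hpq : p ≤ q) (hp : Integrable (fun ξ => ‖charFun μ ξ‖ ^ p)) :
    Integrable (fun ξ => ‖charFun μ ξ‖ ^ q) := by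
  have h1 : Integrable (fun ξ => μ.real Set.univ ^ (q - p) * ‖charFun μ ξ‖ ^ p) := hp.const_mul _
  refine h1.mono' ?_ (Filter.Eventually.of_forall fun ξ => ?_)
  · exact ((charFun_meas μ).norm.pow _).aestronglyMeasurable
  · rw [Real.norm_of_nonneg (by positivity)]
    obtain ⟨r, rfl⟩ := Nat.exists_eq_add_of_le hpq
    rw [Nat.add_sub_cancel_left, add_comm, pow_add]
    apply mul_le_mul_of_nonneg_right _ (by positivity)
    exact pow_le_pow_left₀ (norm_nonneg _) (norm_charFun_le ξ) _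

/-- Borel-Cantelli at the scales `N n ≥ exp (n ^ η)` -/
theorem bc {Ω : Type} [MeasurableSpace Ω] (μ : Measure Ω) [IsFiniteMeasure μ] (N : ℕ → ℕ) (η : ℝ) (hη : 0 < η)
    (hN : ∀ᶠ n : ℕ in atTop, Real.exp ((n : ℝ) ^ η) ≤ N n) (s : ℕ → Set Ω) (P : ℝ) (hP : 0 ≤ P)
    (h : ∀ V : ℕ, ∃ N₀ : ℕ, ∀ᶠ n : ℕ in atTop, N₀ ≤ N n → μ.real (s n) ≤ P / Real.log (N n) ^ V) :
    ∀ᵐ x ∂μ, ∀ᶠ n : ℕ in atTop, x ∉ s n := by
  obtain ⟨U, hU⟩ := exists_nat_ge (2 / η)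
  obtain ⟨N₀, hL⟩ := h U
  have hbig : ∀ᶠ n : ℕ in atTop, N₀ ≤ N n := by
    have h1 : Tendsto (fun n : ℕ => Real.exp ((n : ℝ) ^ η)) atTop atTop :=
      Real.tendsto_exp_atTop.comp ((tendsto_rpow_atTop hη).comp tendsto_natCast_atTop_atTop)
    filter_upwards [hN, h1.eventually_ge_atTop (N₀ : ℝ)] with n h2 h3
    exact_mod_cast h3.trans h2
  have hbd : ∀ᶠ n : ℕ in atTop, μ.real (s n) ≤ P * (1 / (n : ℝ) ^ 2) := by
    filter_upwards [hbig, hN, hL, eventually_ge_atTop 1] with n h2 h3 h4 h5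
    have hn1 : (1 : ℝ) ≤ n := by exact_mod_cast h5
    have hn0 : (0 : ℝ) < n := by linarith
    have hl0 : (0 : ℝ) < N n := (Real.exp_pos _).trans_le h3
    have h6 : (n : ℝ) ^ η ≤ Real.log (N n) := by
      rw [Real.le_log_iff_exp_le hl0]
      exact h3
    refine (h4 h2).trans ?_
    rw [div_eq_mul_one_div]
    apply mul_le_mul_of_nonneg_left _ hP
    apply one_div_le_one_div_of_le (by positivity)
    calc (n : ℝ) ^ 2 = (n : ℝ) ^ (2 : ℝ) := by norm_cast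
      _ ≤ (n : ℝ) ^ (η * U) := by
          apply Real.rpow_le_rpow_of_exponent_le hn1
          rw [div_le_iff₀ hη] at hU
          linarith
      _ = ((n : ℝ) ^ η) ^ U := by
          rw [Real.rpow_mul hn0.le, Real.rpow_natCast]
      _ ≤ Real.log (N n) ^ U := pow_le_pow_left₀ (by positivity) h6 U
  obtain ⟨n₀, hn₀⟩ := eventually_atTop.1 hbd
  have hsum : ∑' n, μ (s (n + n₀)) ≠ ⊤ := by
    have h1 : ∀ n, μ (s (n + n₀)) ≤ ENNReal.ofReal (P * (1 / ((n + n₀ : ℕ) : ℝ) ^ 2)) := by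
      intro n
      have h2 := hn₀ (n + n₀) (by omega)
      rw [← ENNReal.ofReal_toReal (measure_ne_top μ (s (n + n₀)))]
      exact ENNReal.ofReal_le_ofReal h2
    have hsm : Summable (fun n : ℕ => P * (1 / ((n + n₀ : ℕ) : ℝ) ^ 2)) := by
      apply Summable.mul_left
      exact (summable_nat_add_iff (f := fun n : ℕ => 1 / (n : ℝ) ^ 2) n₀).2
        (Real.summable_one_div_nat_pow.2 (by norm_num))
    refine ne_top_of_le_ne_top ?_ (ENNReal.tsum_le_tsum h1)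
    rw [← ENNReal.ofReal_tsum_of_nonneg (fun n => by positivity) hsm]
    exact ENNReal.ofReal_ne_top
  have h8 := ae_eventually_notMem hsum
  filter_upwards [h8] with x hx
  rw [eventually_atTop] at hx ⊢
  obtain ⟨k, hk⟩ := hx
  refine ⟨k + n₀, fun n hn => ?_⟩
  have h9 := hk (n - n₀) (by omega)
  rw [Nat.sub_add_cancel (by omega)] at h9
  exact h9

lemma allS_eps {s : ℕ} {ε ε' : ℝ} (hε : ε ≤ ε') {A U N : ℕ} {a : Fin s → ℕ} (h : AllS ε A U N a) :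
    AllS ε' A U N a := by
  intro j d hj hd had
  obtain ⟨S, h1, h2, h3, h4⟩ := h j d hj hd had
  refine ⟨S, h1, h2, h3, h4.trans ?_⟩
  have hL : 0 ≤ Real.log (N : ℝ) := Real.log_natCast_nonneg N
  exact mul_le_mul_of_nonneg_right hε (by positivity)

theorem sys_ae (s : ℕ) (hs : 1 ≤ s) (μ : Fin s → Measure ℝ) [∀ i, IsFiniteMeasure (μ i)]
    (hI : ∀ i, ∃ p : ℕ, Integrable (fun ξ => ‖charFun (μ i) ξ‖ ^ p)) (N : ℕ → ℕ) (lam c : ℕ → Fin s → ℝ) (η : ℝ) (hη : 0 < η)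
    (hN : ∀ᶠ n : ℕ in atTop, Real.exp ((n : ℝ) ^ η) ≤ N n) (B T : ℕ)
    (hlc : ∀ᶠ n : ℕ in atTop, ∀ i, 0 ≤ c n i ∧ c n i ≤ B * N n ∧ lam n i ≤ B * N n ∧
      (N n : ℝ) ≤ lam n i * Real.log (N n) ^ T) :
    ∀ᵐ x ∂(Measure.pi μ), (∀ i, 0 < x i) → ∀ A U W : ℕ, ∀ ε : ℝ, 0 < ε → ∀ᶠ n : ℕ in atTop, ∀ a : Fin s → ℕ,
      (∀ i, |(a i : ℝ) - (lam n i * x i + c n i)| ≤ Real.log (N n) ^ W) → AllS ε A U (N n) a := by
  classical
  choose p hp using hI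
  obtain ⟨h, hh⟩ : ∃ h, h = ∑ i, p i + 1 := ⟨_, rfl⟩
  have hI' : ∀ i, Integrable (fun ξ => ‖charFun (μ i) ξ‖ ^ (2 * h)) := fun i => by
    refine pow_ge (μ i) (p i) (2 * h) ?_ (hp i)
    have := single_le_sum (f := p) (fun i _ => Nat.zero_le _) (mem_univ i)
    omega
  have key : ∀ A U W k K : ℕ, ∀ᵐ x ∂(Measure.pi μ), ∀ᶠ n : ℕ in atTop, x ∉
      {x : Fin s → ℝ | (∀ i, x i ∈ Set.Icc (1 / ((K + 1 : ℕ) : ℝ)) (K + 1 : ℕ)) ∧ ∃ a : Fin s → ℕ,
        (∀ i, |(a i : ℝ) - (lam n i * x i + c n i)| ≤ Real.log (N n) ^ W) ∧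
        ¬ AllS (1 / ((k : ℝ) + 1)) A U (N n) a} := by
    intro A U W k K
    refine bc (Measure.pi μ) N η hη hN _ (∏ i, (μ i).real (Set.Icc (1 / ((K + 1 : ℕ) : ℝ)) (K + 1 : ℕ)))
      (prod_nonneg fun i _ => measureReal_nonneg) (fun V => ?_)
    obtain ⟨N₀, h0⟩ := sys_one s hs μ h (by omega) hI' A U V W B T (K + 1) (by omega) (1 / ((k : ℝ) + 1)) (by positivity)
    refine ⟨N₀, ?_⟩
    filter_upwards [hlc] with n hn hNn
    exact h0 (N n) hNn (lam n) (c n) hn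
  simp only [← ae_all_iff] at key
  filter_upwards [key] with x hx hpos A U W ε hε
  obtain ⟨k, hk⟩ := exists_nat_one_div_lt hε
  have hK : ∃ K : ℕ, ∀ i, x i ∈ Set.Icc (1 / ((K + 1 : ℕ) : ℝ)) (K + 1 : ℕ) := by
    choose K1 hK1 using fun i => exists_nat_ge (x i)
    choose K2 hK2 using fun i => exists_nat_ge (1 / x i)
    refine ⟨∑ i, K1 i + ∑ i, K2 i, fun i => ?_⟩
    have e1 : K1 i ≤ ∑ i, K1 i := single_le_sum (f := K1) (fun i _ => Nat.zero_le _) (mem_univ i)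
    have e2 : K2 i ≤ ∑ i, K2 i := single_le_sum (f := K2) (fun i _ => Nat.zero_le _) (mem_univ i)
    have e1' : (K1 i : ℝ) ≤ ((∑ i, K1 i + ∑ i, K2 i + 1 : ℕ) : ℝ) := by exact_mod_cast (by omega)
    have e2' : (K2 i : ℝ) ≤ ((∑ i, K1 i + ∑ i, K2 i + 1 : ℕ) : ℝ) := by exact_mod_cast (by omega)
    refine ⟨?_, (hK1 i).trans e1'⟩
    have e3 := (hK2 i).trans e2'
    rw [div_le_iff₀ (hpos i)] at e3
    rw [div_le_iff₀ (by positivity)]
    linarith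
  obtain ⟨K, hK⟩ := hK
  filter_upwards [hx A U W k K] with n hn a ha
  by_contra hcon
  exact hn ⟨hK, a, ha, fun hA => hcon (allS_eps hk.le hA)⟩

end Pool.Agent.Run7.h582.FD
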