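import Pool.Agent.TH935.GF2

set_option autoImplicit false

/-! From finite families of integers to finitely supported weights on the integers. -/

namespace Pool.Agent.Run7.h582.FD
open Finset Filter Topology
open Pool.Agent.TH935.GF (En)

/-- The additive energy of order `h` of the weights `p` on the finite set `J`. -/
noncomputable def WE (h : ℕ) (J : Finset ℤ) (p : ℤ → ℝ) : ℝ :=
  ∑ α ∈ Fintype.piFinset (fun _ : Fin h => J), ∑ β ∈ Fintype.piFinset (fun _ : Fin h => J),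
    if ∑ i, α i = ∑ i, β i then (∏ i, p (α i)) * ∏ i, p (β i) else 0

lemma sum_comp_fam (h : ℕ) {ι : Type} [Fintype ι] [DecidableEq ι] (v : ι → ℤ) (J : Finset ℤ) (hv : ∀ i, v i ∈ J)
    (F : (Fin h → ℤ) → ℝ) :
    ∑ a : Fin h → ι, F (fun i => v (a i)) =
      ∑ α ∈ Fintype.piFinset (fun _ : Fin h => J),
        (∏ i, ((univ.filter (fun x : ι => v x = α i)).card : ℝ)) * F α := by
  classical
  rw [← sum_fiberwise_of_maps_to (s := univ) (t := Fintype.piFinset (fun _ : Fin h => J))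
    (g := fun a : Fin h → ι => fun i => v (a i)) (fun a _ => by
      rw [Fintype.mem_piFinset]
      intro i
      exact hv _)]
  apply sum_congr rfl
  intro α _
  have h1 : (univ.filter (fun a : Fin h → ι => (fun i => v (a i)) = α)) =
      Fintype.piFinset (fun i => univ.filter (fun x : ι => v x = α i)) := by
    ext a
    rw [mem_filter, Fintype.mem_piFinset]
    constructor
    · rintro ⟨_, h2⟩ i
      rw [mem_filter]
      exact ⟨mem_univ _, congrFun h2 i⟩
    · intro h2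
      refine ⟨mem_univ _, funext fun i => ?_⟩
      exact (mem_filter.1 (h2 i)).2
  have h2 : ∀ a ∈ univ.filter (fun a : Fin h → ι => (fun i => v (a i)) = α), F (fun i => v (a i)) = F α := by
    intro a ha
    rw [(mem_filter.1 ha).2]
  rw [sum_congr rfl h2, sum_const, h1, Fintype.card_piFinset, nsmul_eq_mul]
  push_cast
  rfl

lemma En_eq (h : ℕ) {ι : Type} [Fintype ι] [DecidableEq ι] (v : ι → ℤ) (J : Finset ℤ) (hv : ∀ i, v i ∈ J) :
    (En h v : ℝ) = WE h J (fun j => ((univ.filter (fun x : ι => v x = j)).card : ℝ)) := by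
  classical
  have h1 : (En h v : ℝ) = ∑ a : Fin h → ι, ∑ b : Fin h → ι,
      (if ∑ j, v (a j) = ∑ j, v (b j) then (1 : ℝ) else 0) := by
    unfold En
    rw [Nat.card_eq_fintype_card, Fintype.card_subtype, ← Finset.univ_product_univ, card_filter, sum_product]
    push_cast
    rfl
  rw [h1, sum_comp_fam h v J hv (fun α => ∑ b : Fin h → ι, (if ∑ j, α j = ∑ j, v (b j) then (1 : ℝ) else 0))]
  unfold WE
  apply sum_congr rfl
  intro α _
  rw [sum_comp_fam h v J hv (fun β => (if ∑ j, α j = ∑ j, β j then (1 : ℝ) else 0)), mul_sum]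
  apply sum_congr rfl
  intro β _
  split_ifs <;> ring

lemma WE_mul (h : ℕ) (J : Finset ℤ) (p : ℤ → ℝ) (M : ℝ) : WE h J (fun j => M * p j) = M ^ (2 * h) * WE h J p := by
  unfold WE
  rw [mul_sum]
  apply sum_congr rfl
  intro α _
  rw [mul_sum]
  apply sum_congr rfl
  intro β _
  rw [prod_mul_distrib, prod_mul_distrib, prod_const, card_univ, Fintype.card_fin]
  split_ifs
  · ring
  · ring

lemma WE_tendsto (h : ℕ) (J : Finset ℤ) (p : ℤ → ℝ) (q : ℕ → ℤ → ℝ) (hq : ∀ j, Tendsto (fun M => q M j) atTop (𝓝 (p j))) :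
    Tendsto (fun M => WE h J (q M)) atTop (𝓝 (WE h J p)) := by
  unfold WE
  apply tendsto_finsetSum
  intro α _
  apply tendsto_finsetSum
  intro β _
  split_ifs
  · apply Tendsto.mul
    · apply tendsto_finsetProd
      intro i _
      exact hq _
    · apply tendsto_finsetProd
      intro i _
      exact hq _
  · exact tendsto_const_nhds

lemma WE_mono (h : ℕ) (J : Finset ℤ) (p q : ℤ → ℝ) (hp : ∀ j, 0 ≤ p j) (hpq : ∀ j ∈ J, p j ≤ q j) :
    WE h J p ≤ WE h J q := by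
  unfold WE
  apply sum_le_sum
  intro α hα
  apply sum_le_sum
  intro β hβ
  rw [Fintype.mem_piFinset] at hα hβ
  split_ifs
  · apply mul_le_mul
    · exact prod_le_prod (fun i _ => hp _) (fun i _ => hpq _ (hα i))
    · exact prod_le_prod (fun i _ => hp _) (fun i _ => hpq _ (hβ i))
    · exact prod_nonneg (fun i _ => hp _)
    · exact prod_nonneg (fun i _ => (hp _).trans (hpq _ (hα i)))
  · exact le_rfl

/-- The family in which `j ∈ J` occurs `n j` times. -/
abbrev Fam (J : Finset ℤ) (n : ℤ → ℕ) : Type := Σ j : J, Fin (n j)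

lemma sum_fam (J : Finset ℤ) (n : ℤ → ℕ) (F : ℤ → ℝ) : ∑ q : Fam J n, F q.1 = ∑ j ∈ J, (n j : ℝ) * F j := by
  rw [Fintype.sum_sigma, ← sum_coe_sort J (fun j => (n j : ℝ) * F j)]
  apply sum_congr rfl
  intro j _
  show ∑ _y : Fin (n j), F j = _
  rw [sum_const, card_univ, Fintype.card_fin, nsmul_eq_mul]

lemma card_fam (J : Finset ℤ) (n : ℤ → ℕ) : (Fintype.card (Fam J n) : ℝ) = ∑ j ∈ J, (n j : ℝ) := by
  have h1 := sum_fam J n (fun _ => 1)
  rw [sum_const, card_univ, nsmul_eq_mul, mul_one] at h1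
  rw [h1]
  simp

lemma card_filter_fam (J : Finset ℤ) (n : ℤ → ℕ) (P : ℤ → Prop) [DecidablePred P] :
    ((univ.filter (fun q : Fam J n => P q.1)).card : ℝ) = ∑ j ∈ J.filter P, (n j : ℝ) := by
  have h1 := sum_fam J n (fun j => if P j then 1 else 0)
  rw [← sum_filter, sum_const, nsmul_eq_mul, mul_one] at h1
  rw [h1, sum_filter]
  apply sum_congr rfl
  intro j _
  split_ifs <;> simp

lemma En_fam (h : ℕ) (J : Finset ℤ) (n : ℤ → ℕ) :
    (En h (fun q : Fam J n => (q.1 : ℤ)) : ℝ) = WE h J (fun j => (n j : ℝ)) := by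
  classical
  rw [En_eq h _ J (fun q => q.1.2)]
  unfold WE
  apply sum_congr rfl
  intro α hα
  apply sum_congr rfl
  intro β hβ
  rw [Fintype.mem_piFinset] at hα hβ
  have key : ∀ j ∈ J, ((univ.filter (fun x : Fam J n => (x.1 : ℤ) = j)).card : ℝ) = n j := by
    intro j hj
    rw [card_filter_fam J n (fun i => i = j)]
    rw [sum_filter, sum_ite_eq' J j]
    rw [if_pos hj]
  have e1 : ∏ i, ((univ.filter (fun x : Fam J n => (x.1 : ℤ) = α i)).card : ℝ) = ∏ i, (n (α i) : ℝ) :=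
    prod_congr rfl fun i _ => key _ (hα i)
  have e2 : ∏ i, ((univ.filter (fun x : Fam J n => (x.1 : ℤ) = β i)).card : ℝ) = ∏ i, (n (β i) : ℝ) :=
    prod_congr rfl fun i _ => key _ (hβ i)
  rw [e1, e2]

lemma floor_tendsto (x : ℝ) (hx : 0 ≤ x) : Tendsto (fun M : ℕ => (⌊x * M⌋₊ : ℝ) / M) atTop (𝓝 x) := by
  have h1 : Tendsto (fun M : ℕ => x - 1 / (M : ℝ)) atTop (𝓝 x) := by
    have := (tendsto_const_nhds (x := x)).sub (tendsto_one_div_atTop_nhds_zero_nat (𝕜 := ℝ))
    simpa using this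
  refine tendsto_of_tendsto_of_tendsto_of_le_of_le' h1 tendsto_const_nhds ?_ ?_
  · filter_upwards [eventually_ge_atTop 1] with M hM
    have hM0 : (0 : ℝ) < M := by exact_mod_cast hM
    rw [le_div_iff₀ hM0]
    have := Nat.lt_floor_add_one (x * M)
    have e : (x - 1 / (M : ℝ)) * M = x * M - 1 := by field_simp
    rw [e]
    linarith
  · filter_upwards [eventually_ge_atTop 1] with M hM
    have hM0 : (0 : ℝ) < M := by exact_mod_cast hM
    rw [div_le_iff₀ hM0]
    exact Nat.floor_le (by positivity)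

/-- From families to weights. -/
theorem weights (h C U N : ℕ) (Bnd : ℤ) (bad : ℤ → Prop) [DecidablePred bad] (L : ℝ)
    (H : ∀ (ι : Type) [Fintype ι] (v : ι → ℤ), (∀ i, v i ≤ Bnd) →
      (En h v : ℝ) * N ≤ L ^ C * (Fintype.card ι : ℝ) ^ (2 * h) →
      ∀ S : Finset ι, (∀ i ∈ S, bad (v i)) → (S.card : ℝ) ≤ Fintype.card ι / L ^ U)
    (J : Finset ℤ) (hJ : ∀ j ∈ J, j ≤ Bnd) (p : ℤ → ℝ) (hp : ∀ j, 0 ≤ p j)
    (hE : WE h J p * N < L ^ C * (∑ j ∈ J, p j) ^ (2 * h)) :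
    ∑ j ∈ J.filter bad, p j ≤ (∑ j ∈ J, p j) / L ^ U := by
  classical
  obtain ⟨n, hn⟩ : ∃ n : ℕ → ℤ → ℕ, n = fun (M : ℕ) j => ⌊p j * M⌋₊ := ⟨_, rfl⟩
  have hlim : ∀ j, Tendsto (fun M : ℕ => (n M j : ℝ) / M) atTop (𝓝 (p j)) := by
    intro j
    rw [hn]
    exact floor_tendsto (p j) (hp j)
  have l1 : Tendsto (fun M : ℕ => ∑ j ∈ J, (n M j : ℝ) / M) atTop (𝓝 (∑ j ∈ J, p j)) :=
    tendsto_finsetSum _ fun j _ => hlim j
  have l2 : Tendsto (fun M : ℕ => ∑ j ∈ J.filter bad, (n M j : ℝ) / M) atTop (𝓝 (∑ j ∈ J.filter bad, p j)) :=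
    tendsto_finsetSum _ fun j _ => hlim j
  have l3 : Tendsto (fun M : ℕ => WE h J (fun j => (n M j : ℝ) / M) * N) atTop (𝓝 (WE h J p * N)) :=
    (WE_tendsto h J p _ hlim).mul_const _
  have l4 : Tendsto (fun M : ℕ => L ^ C * (∑ j ∈ J, (n M j : ℝ) / M) ^ (2 * h)) atTop
      (𝓝 (L ^ C * (∑ j ∈ J, p j) ^ (2 * h))) := (l1.pow _).const_mul _
  have hev := l3.eventually_lt l4 hE
  refine le_of_tendsto_of_tendsto l2 (l1.div_const (L ^ U)) ?_
  filter_upwards [hev, eventually_ge_atTop 1] with M hM1 hM2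
  have hM0 : (0 : ℝ) < M := by exact_mod_cast hM2
  have e1 : (∑ j ∈ J, (n M j : ℝ) / M) = (∑ j ∈ J, (n M j : ℝ)) / M := by rw [sum_div]
  have e2 : (∑ j ∈ J.filter bad, (n M j : ℝ) / M) = (∑ j ∈ J.filter bad, (n M j : ℝ)) / M := by rw [sum_div]
  have e3 : WE h J (fun j => (n M j : ℝ)) = (M : ℝ) ^ (2 * h) * WE h J (fun j => (n M j : ℝ) / M) := by
    rw [← WE_mul]
    congr 1
    funext j
    field_simp
  have key := H (Fam J (n M)) (fun q => (q.1 : ℤ)) (fun q => hJ _ q.1.2) (by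
    rw [En_fam, card_fam, e3]
    rw [e1] at hM1
    have e4 : (∑ j ∈ J, (n M j : ℝ)) = M * ((∑ j ∈ J, (n M j : ℝ)) / M) := by field_simp
    rw [e4, mul_pow]
    have hMh : (0 : ℝ) < (M : ℝ) ^ (2 * h) := by positivity
    calc (M : ℝ) ^ (2 * h) * WE h J (fun j => (n M j : ℝ) / M) * N =
          (M : ℝ) ^ (2 * h) * (WE h J (fun j => (n M j : ℝ) / M) * N) := by ring
      _ ≤ (M : ℝ) ^ (2 * h) * (L ^ C * ((∑ j ∈ J, (n M j : ℝ)) / M) ^ (2 * h)) :=
          mul_le_mul_of_nonneg_left hM1.le hMh.le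
      _ = _ := by ring) (univ.filter (fun q => bad q.1)) (fun q hq => (mem_filter.1 hq).2)
  rw [card_filter_fam, card_fam] at key
  rw [e1, e2, div_le_iff₀ hM0]
  refine key.trans (le_of_eq ?_)
  field_simp

end Pool.Agent.Run7.h582.FD
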