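import Pool.Agent.Run7.h582.FD.Wt
import Pool.Agent.H373R2.T7.EnergyDef

set_option autoImplicit false

/-! From products of finite families of natural numbers to products of finitely supported weights. -/

namespace Pool.Agent.Run7.h582.FD
open Finset Filter Topology

lemma sum_pi {k : ℕ} (Ω : Fin k → Finset ℕ) (s : Fin k → ℕ → ℤ) (J : Fin k → Finset ℤ)
    (hv : ∀ i, ∀ m ∈ Ω i, s i m ∈ J i) (F : (Fin k → ℤ) → ℝ) :
    ∑ m ∈ Fintype.piFinset Ω, F (fun i => s i (m i)) =
      ∑ α ∈ Fintype.piFinset J, (∏ i, (((Ω i).filter (fun m => s i m = α i)).card : ℝ)) * F α := by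
  classical
  rw [← sum_fiberwise_of_maps_to (s := Fintype.piFinset Ω) (t := Fintype.piFinset J)
    (g := fun m => fun i => s i (m i)) (fun m hm => by
      rw [Fintype.mem_piFinset] at hm ⊢
      intro i
      exact hv i _ (hm i))]
  apply sum_congr rfl
  intro α _
  have h1 : ((Fintype.piFinset Ω).filter (fun m => (fun i => s i (m i)) = α)) =
      Fintype.piFinset (fun i => (Ω i).filter (fun m => s i m = α i)) := by
    ext m
    rw [mem_filter, Fintype.mem_piFinset, Fintype.mem_piFinset]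
    constructor
    · rintro ⟨h3, h2⟩ i
      rw [mem_filter]
      exact ⟨h3 i, congrFun h2 i⟩
    · intro h2
      refine ⟨fun i => (mem_filter.1 (h2 i)).1, funext fun i => ?_⟩
      exact (mem_filter.1 (h2 i)).2
  have h2 : ∀ m ∈ (Fintype.piFinset Ω).filter (fun m => (fun i => s i (m i)) = α), F (fun i => s i (m i)) = F α := by
    intro m hm
    rw [(mem_filter.1 hm).2]
  rw [sum_congr rfl h2, sum_const, h1, Fintype.card_piFinset, nsmul_eq_mul]
  push_cast
  rfl

lemma energy_WE (h x : ℕ) (s : ℕ → ℤ) (J : Finset ℤ) (hv : ∀ m ∈ Icc 1 x, s m ∈ J) :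
    (Pool.Agent.H373R2.T7.energy h x s : ℝ) =
      WE h J (fun j => (((Icc 1 x).filter (fun m => s m = j)).card : ℝ)) := by
  classical
  have h1 : (Pool.Agent.H373R2.T7.energy h x s : ℝ) =
      ∑ a ∈ Fintype.piFinset (fun _ : Fin h => Icc 1 x), ∑ b ∈ Fintype.piFinset (fun _ : Fin h => Icc 1 x),
      (if ∑ j, s (a j) = ∑ j, s (b j) then (1 : ℝ) else 0) := by
    unfold Pool.Agent.H373R2.T7.energy
    rw [card_filter, sum_product]
    push_cast
    rfl
  rw [h1, sum_pi (fun _ => Icc 1 x) (fun _ => s) (fun _ => J) (fun _ => hv)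
    (fun α => ∑ b ∈ Fintype.piFinset (fun _ : Fin h => Icc 1 x), (if ∑ j, α j = ∑ j, s (b j) then (1 : ℝ) else 0))]
  unfold WE
  apply sum_congr rfl
  intro α _
  rw [sum_pi (fun _ => Icc 1 x) (fun _ => s) (fun _ => J) (fun _ => hv)
    (fun β => (if ∑ j, α j = ∑ j, β j then (1 : ℝ) else 0)), mul_sum]
  apply sum_congr rfl
  intro β _
  split_ifs <;> ring

/-- an enumeration of the family in which `j ∈ J` occurs `n j` times -/
lemma enum (J : Finset ℤ) (n : ℤ → ℕ) : ∃ (x : ℕ) (s : ℕ → ℤ), (x : ℝ) = ∑ j ∈ J, (n j : ℝ) ∧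
    (∀ m ∈ Icc 1 x, s m ∈ J) ∧ ∀ j ∈ J, ((Icc 1 x).filter (fun m => s m = j)).card = n j := by
  classical
  obtain ⟨x, hx⟩ : ∃ x, x = Fintype.card (Fam J n) := ⟨_, rfl⟩
  have e : Fam J n ≃ Fin x := by rw [hx]; exact Fintype.equivFin _
  obtain ⟨s, hs⟩ : ∃ s : ℕ → ℤ, s = fun m => if hm : m - 1 < x then ((e.symm ⟨m - 1, hm⟩).1 : ℤ) else 0 := ⟨_, rfl⟩
  refine ⟨x, s, ?_, ?_, ?_⟩
  · rw [hx, card_fam]
  · intro m hm
    rw [mem_Icc] at hm
    rw [hs]
    simp only
    rw [dif_pos (by omega)]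
    exact (e.symm ⟨m - 1, _⟩).1.2
  · intro j hj
    have h1 : ((Icc 1 x).filter (fun m => s m = j)).card = (univ.filter (fun q : Fam J n => (q.1 : ℤ) = j)).card := by
      symm
      apply card_bij (fun q _ => (e q : ℕ) + 1)
      · intro q hq
        rw [mem_filter] at hq
        rw [mem_filter, mem_Icc]
        have h2 := (e q).2
        refine ⟨⟨by omega, by omega⟩, ?_⟩
        rw [hs]
        simp only
        rw [dif_pos (by omega : (e q : ℕ) + 1 - 1 < x)]
        have h3 : (⟨(e q : ℕ) + 1 - 1, by omega⟩ : Fin x) = e q := by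
          apply Fin.ext
          simp
        rw [h3, Equiv.symm_apply_apply]
        exact hq.2
      · intro q _ q' _ h2
        apply e.injective
        apply Fin.ext
        omega
      · intro m hm
        rw [mem_filter, mem_Icc] at hm
        refine ⟨e.symm ⟨m - 1, by omega⟩, ?_, ?_⟩
        · rw [mem_filter]
          refine ⟨mem_univ _, ?_⟩
          have h2 := hm.2
          rw [hs] at h2
          simp only at h2
          rw [dif_pos (by omega)] at h2
          exact h2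
        · rw [Equiv.apply_symm_apply]
          simp only
          omega
    rw [h1]
    have h2 := card_filter_fam J n (fun i => i = j)
    rw [sum_filter, sum_ite_eq' J j, if_pos hj] at h2
    exact_mod_cast h2

/-- From products of families to products of weights. -/
theorem weights_prod (k h N : ℕ) (Bnd : ℕ) (bad : (Fin k → ℕ) → Prop) [DecidablePred bad] (X Y : ℝ)
    (H : ∀ (x : Fin k → ℕ) (s : Fin k → ℕ → ℕ), (∀ i, 1 ≤ x i) → (∀ i, ∀ m ∈ Icc 1 (x i), s i m ≤ Bnd) →
      (∀ i, (Pool.Agent.H373R2.T7.energy h (x i) (fun m => (s i m : ℤ)) : ℝ) * N ≤ X * (x i : ℝ) ^ (2 * h)) →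
      ∀ S : Finset (Fin k → ℕ), S ⊆ Fintype.piFinset (fun i => Icc 1 (x i)) →
      (∀ m ∈ S, bad (fun i => s i (m i))) → (S.card : ℝ) ≤ (∏ i, (x i : ℝ)) / Y)
    (J : Fin k → Finset ℤ) (hJ0 : ∀ i, ∀ j ∈ J i, 0 ≤ j) (hJ : ∀ i, ∀ j ∈ J i, j ≤ Bnd)
    (p : Fin k → ℤ → ℝ) (hp : ∀ i j, 0 ≤ p i j) (hpos : ∀ i, 0 < ∑ j ∈ J i, p i j)
    (hE : ∀ i, WE h (J i) (p i) * N < X * (∑ j ∈ J i, p i j) ^ (2 * h)) :
    ∑ α ∈ (Fintype.piFinset J).filter (fun α => bad (fun i => (α i).toNat)), ∏ i, p i (α i) ≤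
      (∏ i, ∑ j ∈ J i, p i j) / Y := by
  classical
  obtain ⟨n, hn⟩ : ∃ n : ℕ → Fin k → ℤ → ℕ, n = fun (M : ℕ) i j => ⌊p i j * M⌋₊ := ⟨_, rfl⟩
  have hlim : ∀ i j, Tendsto (fun M : ℕ => (n M i j : ℝ) / M) atTop (𝓝 (p i j)) := by
    intro i j
    rw [hn]
    exact floor_tendsto (p i j) (hp i j)
  have l1 : ∀ i, Tendsto (fun M : ℕ => ∑ j ∈ J i, (n M i j : ℝ) / M) atTop (𝓝 (∑ j ∈ J i, p i j)) :=
    fun i => tendsto_finsetSum _ fun j _ => hlim i j
  have l1' : Tendsto (fun M : ℕ => (∏ i, ∑ j ∈ J i, (n M i j : ℝ) / M) / Y) atTop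
      (𝓝 ((∏ i, ∑ j ∈ J i, p i j) / Y)) := (tendsto_finsetProd _ fun i _ => l1 i).div_const _
  have l2 : Tendsto (fun M : ℕ => ∑ α ∈ (Fintype.piFinset J).filter (fun α => bad (fun i => (α i).toNat)),
      ∏ i, ((n M i (α i) : ℝ) / M)) atTop
      (𝓝 (∑ α ∈ (Fintype.piFinset J).filter (fun α => bad (fun i => (α i).toNat)), ∏ i, p i (α i))) :=
    tendsto_finsetSum _ fun α _ => tendsto_finsetProd _ fun i _ => hlim i _
  have hev : ∀ᶠ M : ℕ in atTop, ∀ i, WE h (J i) (fun j => (n M i j : ℝ) / M) * N <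
      X * (∑ j ∈ J i, (n M i j : ℝ) / M) ^ (2 * h) := by
    rw [eventually_all]
    intro i
    exact ((WE_tendsto h (J i) (p i) _ (hlim i)).mul_const _).eventually_lt (((l1 i).pow _).const_mul _) (hE i)
  have hev2 : ∀ᶠ M : ℕ in atTop, ∀ i, 0 < ∑ j ∈ J i, (n M i j : ℝ) / M := by
    rw [eventually_all]
    intro i
    exact (l1 i).eventually_const_lt (hpos i)
  refine le_of_tendsto_of_tendsto l2 l1' ?_
  filter_upwards [hev, hev2, eventually_ge_atTop 1] with M hM1 hM3 hM2
  have hM0 : (0 : ℝ) < M := by exact_mod_cast hM2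
  have e1 : ∀ i, (∑ j ∈ J i, (n M i j : ℝ) / M) = (∑ j ∈ J i, (n M i j : ℝ)) / M := fun i => by rw [sum_div]
  choose x s hx hs hc using fun i => enum (J i) (n M i)
  have hx1 : ∀ i, 1 ≤ x i := by
    intro i
    have h1 := hM3 i
    rw [e1, ← hx] at h1
    have h2 : (0 : ℝ) < x i := by
      by_contra h3
      push Not at h3
      have : (x i : ℝ) / M ≤ 0 := div_nonpos_of_nonpos_of_nonneg h3 hM0.le
      linarith
    have h3 : 0 < x i := by exact_mod_cast h2
    exact h3
  obtain ⟨S, hS⟩ : ∃ S, S = (Fintype.piFinset (fun i => Icc 1 (x i))).filter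
      (fun m : Fin k → ℕ => bad (fun i => (s i (m i)).toNat)) := ⟨_, rfl⟩
  have key := H x (fun i m => (s i m).toNat) hx1 (fun i m hm => by
      have h1 := hJ i _ (hs i m hm)
      omega) (fun i => by
      have e2 : Pool.Agent.H373R2.T7.energy h (x i) (fun m => ((s i m).toNat : ℤ)) =
          Pool.Agent.H373R2.T7.energy h (x i) (s i) := by
        unfold Pool.Agent.H373R2.T7.energy
        congr 1
        apply filter_congr
        intro q hq
        rw [mem_product, Fintype.mem_piFinset, Fintype.mem_piFinset] at hq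
        have h1 : ∀ m ∈ Icc 1 (x i), ((s i m).toNat : ℤ) = s i m := fun m hm =>
          Int.toNat_of_nonneg (hJ0 i _ (hs i m hm))
        rw [sum_congr rfl (fun j _ => h1 _ (hq.1 j)), sum_congr rfl (fun j _ => h1 _ (hq.2 j))]
      rw [e2, energy_WE h (x i) (s i) (J i) (hs i)]
      have e3 : WE h (J i) (fun j => (((Icc 1 (x i)).filter (fun m => s i m = j)).card : ℝ)) =
          (M : ℝ) ^ (2 * h) * WE h (J i) (fun j => (n M i j : ℝ) / M) := by
        rw [← WE_mul]
        unfold WE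
        apply sum_congr rfl
        intro α hα
        apply sum_congr rfl
        intro β hβ
        rw [Fintype.mem_piFinset] at hα hβ
        have h1 : ∀ j ∈ J i, (((Icc 1 (x i)).filter (fun m => s i m = j)).card : ℝ) = (M : ℝ) * ((n M i j : ℝ) / M) := by
          intro j hj
          rw [hc i j hj]
          field_simp
        rw [prod_congr rfl (fun l _ => h1 _ (hα l)), prod_congr rfl (fun l _ => h1 _ (hβ l))]
      rw [e3]
      have h2 := hM1 i
      rw [e1, ← hx] at h2
      have hMh : (0 : ℝ) < (M : ℝ) ^ (2 * h) := by positivity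
      calc (M : ℝ) ^ (2 * h) * WE h (J i) (fun j => (n M i j : ℝ) / M) * N =
            (M : ℝ) ^ (2 * h) * (WE h (J i) (fun j => (n M i j : ℝ) / M) * N) := by ring
        _ ≤ (M : ℝ) ^ (2 * h) * (X * ((x i : ℝ) / M) ^ (2 * h)) := mul_le_mul_of_nonneg_left h2.le hMh.le
        _ = X * (x i : ℝ) ^ (2 * h) := by
          rw [div_pow]
          field_simp) S (by rw [hS]; exact filter_subset _ _) (fun m hm => by
      rw [hS] at hm
      exact (mem_filter.1 hm).2)
  have hScard : (S.card : ℝ) = ∑ α ∈ (Fintype.piFinset J).filter (fun α => bad (fun i => (α i).toNat)),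
      ∏ i, (n M i (α i) : ℝ) := by
    rw [hS, card_filter]
    push_cast
    rw [sum_pi (fun i => Icc 1 (x i)) s J hs (fun α => if bad (fun i => (α i).toNat) then (1 : ℝ) else 0), sum_filter]
    apply sum_congr rfl
    intro α hα
    rw [Fintype.mem_piFinset] at hα
    have h1 : ∀ i, (((Icc 1 (x i)).filter (fun m => s i m = α i)).card : ℝ) = n M i (α i) := fun i => by
      rw [hc i _ (hα i)]
    rw [prod_congr rfl (fun i _ => h1 i)]
    split_ifs <;> simp
  rw [hScard] at key
  have e4 : ∑ α ∈ (Fintype.piFinset J).filter (fun α => bad (fun i => (α i).toNat)), ∏ i, ((n M i (α i) : ℝ) / M) =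
      (∑ α ∈ (Fintype.piFinset J).filter (fun α => bad (fun i => (α i).toNat)), ∏ i, (n M i (α i) : ℝ)) / M ^ k := by
    rw [sum_div]
    apply sum_congr rfl
    intro α _
    rw [prod_div_distrib, prod_const, card_univ, Fintype.card_fin]
  have e5 : (∏ i, ∑ j ∈ J i, (n M i j : ℝ) / M) = (∏ i, (x i : ℝ)) / M ^ k := by
    have : ∀ i, ∑ j ∈ J i, (n M i j : ℝ) / M = (x i : ℝ) / M := fun i => by rw [e1, ← hx]
    rw [prod_congr rfl (fun i _ => this i), prod_div_distrib, prod_const, card_univ, Fintype.card_fin]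
  rw [e4, e5, div_right_comm]
  exact div_le_div_of_nonneg_right key (by positivity)

end Pool.Agent.Run7.h582.FD
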